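import Mathlib

set_option autoImplicit false

namespace Pool.Agent.Helper974.Moufang

open MeasureTheory

section BoolGroup
variable {B : Type*} [Group B] [TopologicalSpace B] [IsTopologicalGroup B] [CompactSpace B] [T2Space B]

/-- a compact connected group in which every square is trivial is trivial -/
theorem bool_trivial [ConnectedSpace B] (hB : ∀ x : B, x * x = 1) (a : B) : a = 1 := by
  by_contra ha
  have hcomm : ∀ x y : B, x * y = y * x := by
    intro x y
    have h1 := hB (x * y)
    have hx := hB x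
    have hy := hB y
    have hxi : x⁻¹ = x := inv_eq_of_mul_eq_one_left hx
    have hyi : y⁻¹ = y := inv_eq_of_mul_eq_one_left hy
    have h2 : (x * y)⁻¹ = x * y := inv_eq_of_mul_eq_one_left h1
    rw [mul_inv_rev, hxi, hyi] at h2
    exact h2.symm
  letI : MeasurableSpace B := borel B
  haveI : BorelSpace B := ⟨rfl⟩
  let μ : Measure B := Measure.haarMeasure ⊤
  haveI hμ : IsProbabilityMeasure μ := by
    refine ⟨?_⟩
    have := Measure.haarMeasure_self (G := B) (K₀ := ⊤)
    simpa using this
  have hint : ∀ f : B → ℝ, Continuous f → Integrable f μ := fun f hf =>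
    hf.integrable_of_hasCompactSupport (HasCompactSupport.of_compactSpace f)
  have htr : ∀ (f : B → ℝ) (b : B), ∫ x, f (b * x) ∂μ = ∫ x, f x ∂μ := fun f b =>
    integral_mul_left_eq_self f b
  have hpos : ∀ f : B → ℝ, Continuous f → (∀ x, 0 ≤ f x) → (∃ x, f x ≠ 0) → 0 < ∫ x, f x ∂μ := by
    intro f hf h0 ⟨x, hx⟩
    exact hf.integral_pos_of_hasCompactSupport_nonneg_nonzero (HasCompactSupport.of_compactSpace f)
      (fun y => h0 y) hx
  -- a mean zero continuous function
  obtain ⟨f, hf⟩ : ∃ f : C(B, ℝ), f a ≠ f 1 := by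
    obtain ⟨f, hf0, hf1, _⟩ := exists_continuous_zero_one_of_isClosed (X := B) (s := {1}) (t := {a})
      isClosed_singleton isClosed_singleton (by
        rw [Set.disjoint_singleton]; exact fun h => ha h.symm)
    refine ⟨f, ?_⟩
    rw [hf1 rfl, hf0 rfl]
    simp
  let g0 : C(B, ℝ) := f - (∫ x, f x ∂μ) • (1 : C(B, ℝ))
  have hg0v : ∀ x, g0 x = f x - ∫ x, f x ∂μ := fun x => by
    change f x - (∫ x, f x ∂μ) * 1 = _
    rw [mul_one]
  have hg0m : ∫ x, g0 x ∂μ = 0 := by
    simp only [hg0v]
    rw [integral_sub (hint _ f.continuous) (integrable_const _), integral_const]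
    simp
  have hg0n : ∃ x, g0 x ≠ 0 := by
    by_contra hcon
    push Not at hcon
    have h1 := hcon a
    have h2 := hcon 1
    rw [hg0v] at h1 h2
    exact hf (by linarith)
  -- the convolution operator
  let M : C(B, ℝ) → C(B × B, ℝ) := fun g => ⟨fun p => g0 (p.1 * p.2) * g p.2,
    (g0.continuous.comp (continuous_fst.mul continuous_snd)).mul (g.continuous.comp continuous_snd)⟩
  have hGc : ∀ g : C(B, ℝ), Continuous (fun x => ∫ y, g0 (x * y) * g y ∂μ) := by
    intro g
    let J : C(B, ℝ) →ₗ[ℝ] ℝ :=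
      { toFun := fun f => ∫ x, f x ∂μ
        map_add' := fun f1 f2 => integral_add (hint _ f1.continuous) (hint _ f2.continuous)
        map_smul' := fun c f1 => integral_const_mul c _ }
    let Jc : C(B, ℝ) →L[ℝ] ℝ := J.mkContinuous 1 (fun f => by
      rw [one_mul]
      change ‖∫ x, f x ∂μ‖ ≤ ‖f‖
      refine le_trans (norm_integral_le_of_norm_le_const (C := ‖f‖)
        (Filter.Eventually.of_forall (fun x => f.norm_coe_le_norm x))) ?_
      simp)
    exact Jc.continuous.comp (M g).curry.continuous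
  let G : C(B, ℝ) → C(B, ℝ) := fun g => ⟨fun x => ∫ y, g0 (x * y) * g y ∂μ, hGc g⟩
  have hGv : ∀ g x, G g x = ∫ y, g0 (x * y) * g y ∂μ := fun g x => rfl
  have hintG : ∀ (g : C(B, ℝ)) x, Integrable (fun y => g0 (x * y) * g y) μ := fun g x =>
    hint _ ((g0.continuous.comp (continuous_const.mul continuous_id)).mul g.continuous)
  -- translation
  let τ : B → C(B, ℝ) → C(B, ℝ) := fun b g => ⟨fun x => g (b * x),
    g.continuous.comp (continuous_const.mul continuous_id)⟩
  have hτv : ∀ b g x, τ b g x = g (b * x) := fun b g x => rfl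
  have hGτ : ∀ b g x, G (τ b g) x = G g (b * x) := by
    intro b g x
    rw [hGv, hGv]
    have h1 := htr (fun y => g0 (b * x * y) * g y) b
    rw [← h1]
    refine integral_congr_ae (Filter.Eventually.of_forall (fun y => ?_))
    change g0 (x * y) * g (b * y) = g0 (b * x * (b * y)) * g (b * y)
    have : b * x * (b * y) = x * y := by
      rw [hcomm b x, mul_assoc, ← mul_assoc b b y, hB, one_mul]
    rw [this]
  -- splitting
  let sp : ℝ → B → C(B, ℝ) → C(B, ℝ) := fun s b g => (1 / 2 : ℝ) • (g + s • τ b g)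
  have hspv : ∀ s b g x, sp s b g x = 1 / 2 * (g x + s * g (b * x)) := fun s b g x => rfl
  have hGsp : ∀ s b g x, G (sp s b g) x = 1 / 2 * (G g x + s * G g (b * x)) := by
    intro s b g x
    rw [← hGτ b g x, hGv, hGv, hGv, ← integral_const_mul, ← integral_add (hintG g x)
      ((hintG (τ b g) x).const_mul s), ← integral_const_mul]
    refine integral_congr_ae (Filter.Eventually.of_forall (fun y => ?_))
    change g0 (x * y) * sp s b g y = 1 / 2 * (g0 (x * y) * g y + s * (g0 (x * y) * τ b g y))
    rw [hspv, hτv]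
    ring
  have hsplit : ∀ (u : C(B, ℝ)) (b : B), ∫ x, (u x) ^ 2 ∂μ =
      ∫ x, (1 / 2 * (u x + 1 * u (b * x))) ^ 2 ∂μ + ∫ x, (1 / 2 * (u x + (-1) * u (b * x))) ^ 2 ∂μ := by
    intro u b
    have hc1 : Continuous (fun x => u (b * x)) := u.continuous.comp (continuous_const.mul continuous_id)
    have hi1 : Integrable (fun x => (1 / 2 * (u x + 1 * u (b * x))) ^ 2) μ :=
      hint _ ((continuous_const.mul (u.continuous.add (continuous_const.mul hc1))).pow 2)
    have hi2 : Integrable (fun x => (1 / 2 * (u x + (-1) * u (b * x))) ^ 2) μ :=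
      hint _ ((continuous_const.mul (u.continuous.add (continuous_const.mul hc1))).pow 2)
    rw [← integral_add hi1 hi2]
    have h1 : ∀ x, (1 / 2 * (u x + 1 * u (b * x))) ^ 2 + (1 / 2 * (u x + (-1) * u (b * x))) ^ 2
        = 1 / 2 * (u x) ^ 2 + 1 / 2 * (u (b * x)) ^ 2 := fun x => by ring
    simp only [h1]
    have hj1 : Integrable (fun x => 1 / 2 * (u x) ^ 2) μ :=
      hint _ (continuous_const.mul (u.continuous.pow 2))
    have hj2 : Integrable (fun x => 1 / 2 * (u (b * x)) ^ 2) μ :=
      hint _ (continuous_const.mul (hc1.pow 2))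
    rw [integral_add hj1 hj2, integral_const_mul, integral_const_mul, htr (fun x => (u x) ^ 2) b]
    ring
  -- the quantity rho
  have hE0 : 0 < ∫ x, (g0 x) ^ 2 ∂μ := by
    obtain ⟨x, hx⟩ := hg0n
    exact hpos _ (g0.continuous.pow 2) (fun x => sq_nonneg _) ⟨x, pow_ne_zero 2 hx⟩
  have hφ0 : 0 < ∫ x, (G g0 x) ^ 2 ∂μ := by
    refine hpos _ ((G g0).continuous.pow 2) (fun x => sq_nonneg _) ⟨1, pow_ne_zero 2 ?_⟩
    rw [hGv]
    have : ∀ y, g0 (1 * y) * g0 y = (g0 y) ^ 2 := fun y => by rw [one_mul]; ring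
    simp only [this]
    exact hE0.ne'
  set ρ : ℝ := (∫ x, (G g0 x) ^ 2 ∂μ) / ∫ x, (g0 x) ^ 2 ∂μ with hρ
  have hρ0 : 0 < ρ := div_pos hφ0 hE0
  have hlist : ∀ l : List B, ∃ g : C(B, ℝ), 0 < ∫ x, (g x) ^ 2 ∂μ ∧
      ρ * ∫ x, (g x) ^ 2 ∂μ ≤ ∫ x, (G g x) ^ 2 ∂μ ∧
      ∀ b ∈ l, (∀ x, g (b * x) = g x) ∨ (∀ x, g (b * x) = - g x) := by
    intro l
    induction l with
    | nil =>
      refine ⟨g0, hE0, ?_, by simp⟩
      rw [hρ, div_mul_cancel₀ _ hE0.ne']
    | cons b t ih =>
      obtain ⟨g, hg1, hg2, hg3⟩ := ih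
      have hA := hsplit g b
      have hC := hsplit (G g) b
      have key : ∀ s : ℝ, (s = 1 ∨ s = -1) → 0 < ∫ x, (sp s b g x) ^ 2 ∂μ →
          ρ * ∫ x, (sp s b g x) ^ 2 ∂μ ≤ ∫ x, (G (sp s b g) x) ^ 2 ∂μ →
          ∃ g : C(B, ℝ), 0 < ∫ x, (g x) ^ 2 ∂μ ∧ ρ * ∫ x, (g x) ^ 2 ∂μ ≤ ∫ x, (G g x) ^ 2 ∂μ ∧
          ∀ b' ∈ b :: t, (∀ x, g (b' * x) = g x) ∨ (∀ x, g (b' * x) = - g x) := by
        intro s hs h1 h2
        refine ⟨sp s b g, h1, h2, ?_⟩
        intro b' hb'
        rcases List.mem_cons.mp hb' with rfl | hb'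
        · have hbb : ∀ x, b' * (b' * x) = x := fun x => by rw [← mul_assoc, hB, one_mul]
          rcases hs with rfl | rfl
          · left
            intro x
            rw [hspv, hspv, hbb]
            ring
          · right
            intro x
            rw [hspv, hspv, hbb]
            ring
        · rcases hg3 b' hb' with h | h
          · left
            intro x
            rw [hspv, hspv, h, ← mul_assoc, hcomm b b', mul_assoc, h]
          · right
            intro x
            rw [hspv, hspv, h, ← mul_assoc, hcomm b b', mul_assoc, h]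
            ring
      have hnn : ∀ s : ℝ, 0 ≤ ∫ x, (sp s b g x) ^ 2 ∂μ := fun s => integral_nonneg (fun x => sq_nonneg _)
      have hzero : ∀ s : ℝ, ∫ x, (sp s b g x) ^ 2 ∂μ = 0 → ∫ x, (G (sp s b g) x) ^ 2 ∂μ = 0 := by
        intro s h0
        have hz : ∀ x, sp s b g x = 0 := by
          by_contra hcon
          push Not at hcon
          obtain ⟨x, hx⟩ := hcon
          have : 0 < ∫ x, (sp s b g x) ^ 2 ∂μ := hpos (fun x => (sp s b g x) ^ 2)
            ((sp s b g).continuous.pow 2) (fun x => sq_nonneg _) ⟨x, pow_ne_zero 2 hx⟩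
          linarith
        have : ∀ x, G (sp s b g) x = 0 := by
          intro x
          rw [hGv]
          simp only [hz, mul_zero, integral_zero]
        simp only [this]
        simp
      have hA' : ∫ x, (g x) ^ 2 ∂μ = ∫ x, (sp 1 b g x) ^ 2 ∂μ + ∫ x, (sp (-1) b g x) ^ 2 ∂μ := hA
      have hC' : ∫ x, (G g x) ^ 2 ∂μ = ∫ x, (G (sp 1 b g) x) ^ 2 ∂μ + ∫ x, (G (sp (-1) b g) x) ^ 2 ∂μ := by
        rw [hC]
        congr 1
        · refine integral_congr_ae (Filter.Eventually.of_forall (fun x => ?_))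
          change _ = (G (sp 1 b g) x) ^ 2
          rw [hGsp]
        · refine integral_congr_ae (Filter.Eventually.of_forall (fun x => ?_))
          change _ = (G (sp (-1) b g) x) ^ 2
          rw [hGsp]
      rcases eq_or_lt_of_le (hnn 1) with h1 | h1
      · have h1' := hzero 1 h1.symm
        refine key (-1) (Or.inr rfl) (by linarith) ?_
        rw [hA', hC', ← h1, h1', zero_add, zero_add] at hg2
        exact hg2
      · by_cases h2 : ρ * ∫ x, (sp 1 b g x) ^ 2 ∂μ ≤ ∫ x, (G (sp 1 b g) x) ^ 2 ∂μ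
        · exact key 1 (Or.inl rfl) h1 h2
        · push Not at h2
          have h3 : ρ * ∫ x, (sp (-1) b g x) ^ 2 ∂μ < ∫ x, (G (sp (-1) b g) x) ^ 2 ∂μ := by
            rw [hA', hC'] at hg2
            nlinarith [hg2, h2]
          rcases eq_or_lt_of_le (hnn (-1)) with h4 | h4
          · have h4' := hzero (-1) h4.symm
            rw [← h4, h4'] at h3
            simp at h3
          · exact key (-1) (Or.inr rfl) h4 h3.le
  -- the neighbourhood
  let N : C(B × B, ℝ) := ⟨fun p => g0 (p.1 * p.2), g0.continuous.comp (continuous_fst.mul continuous_snd)⟩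
  let V : Set B := {v | ‖N.curry v - N.curry 1‖ < Real.sqrt ρ}
  have hV : IsOpen V := isOpen_lt (N.curry.continuous.sub continuous_const).norm continuous_const
  have hV1 : (1 : B) ∈ V := by
    change ‖N.curry 1 - N.curry 1‖ < Real.sqrt ρ
    rw [sub_self, norm_zero]
    exact Real.sqrt_pos.mpr hρ0
  obtain ⟨F, hF⟩ := isCompact_univ.elim_finite_subcover (fun b : B => {x | x * b ∈ V})
    (fun b => hV.preimage (continuous_id.mul continuous_const))
    (fun x _ => Set.mem_iUnion.mpr ⟨x, by
      change x * x ∈ V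
      rw [hB]; exact hV1⟩)
  obtain ⟨g, hg1, hg2, hg3⟩ := hlist F.toList
  set h := G g with hh
  obtain ⟨x0, hx0⟩ := (isCompact_univ (X := B)).exists_isMaxOn Set.univ_nonempty
    ((h.continuous.pow 2).continuousOn)
  have hmax : ∀ x, (h x) ^ 2 ≤ (h x0) ^ 2 := fun x => hx0.2 (Set.mem_univ x)
  set m : ℝ := ∫ y, |g y| ∂μ with hm
  have hgabs : Continuous (fun y => |g y|) := g.continuous.abs
  have hm2 : m ^ 2 ≤ ∫ y, (g y) ^ 2 ∂μ := by
    have h1 : 0 ≤ ∫ y, (|g y| - m) ^ 2 ∂μ := integral_nonneg (fun y => sq_nonneg _)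
    have h2 : ∀ y, (|g y| - m) ^ 2 = (g y) ^ 2 - 2 * m * |g y| + m ^ 2 := fun y => by
      have := sq_abs (g y)
      nlinarith [this]
    simp only [h2] at h1
    have hj1 : Integrable (fun y => (g y) ^ 2) μ := hint _ (g.continuous.pow 2)
    have hj2 : Integrable (fun y => 2 * m * |g y|) μ := hint _ (continuous_const.mul hgabs)
    have hj3 : Integrable (fun y => (g y) ^ 2 - 2 * m * |g y|) μ := hj1.sub hj2
    rw [integral_add hj3 (integrable_const _), integral_sub hj1 hj2, integral_const_mul,
      integral_const] at h1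
    simp only [probReal_univ, one_smul] at h1
    rw [← hm] at h1
    nlinarith [h1]
  have hmpos : 0 < m := by
    obtain ⟨x, hx⟩ : ∃ x, g x ≠ 0 := by
      by_contra hcon
      push Not at hcon
      simp only [hcon] at hg1
      simp at hg1
    exact hpos _ hgabs (fun x => abs_nonneg _) ⟨x, abs_ne_zero.mpr hx⟩
  have hx0b : ρ * m ^ 2 ≤ (h x0) ^ 2 := by
    have h1 : ∫ x, (h x) ^ 2 ∂μ ≤ ∫ _x, (h x0) ^ 2 ∂μ :=
      integral_mono (hint _ (h.continuous.pow 2)) (integrable_const _) hmax
    rw [integral_const] at h1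
    simp only [probReal_univ, one_smul] at h1
    nlinarith [h1, hg2, hm2, hρ0]
  have hx0c : Real.sqrt ρ * m ≤ |h x0| := by
    refine abs_le_of_sq_le_sq' ?_ (abs_nonneg _) |>.2
    rw [mul_pow, Real.sq_sqrt hρ0.le, sq_abs]
    exact hx0b
  have hne : ∀ x, h x ≠ 0 := by
    intro x hx
    have hcov := hF (Set.mem_univ (x * x0))
    simp only [Set.mem_iUnion] at hcov
    obtain ⟨b, hb, hbV⟩ := hcov
    have hbV' : x * x0 * b ∈ V := hbV
    set v := x * x0 * b with hv
    have hxv : v * (b * x0) = x := by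
      rw [hv, mul_assoc (x * x0), ← mul_assoc b b x0, hB, one_mul, mul_assoc, hB, mul_one]
    have habs : |h (b * x0)| = |h x0| := by
      have h1 : h (b * x0) = G (τ b g) x0 := (hGτ b g x0).symm
      rcases hg3 b (Finset.mem_toList.mpr hb) with h2 | h2
      · have : τ b g = g := by ext y; exact h2 y
        rw [h1, this]
      · have h3 : G (τ b g) x0 = - h x0 := by
          rw [hh, hGv, hGv, ← integral_neg]
          refine integral_congr_ae (Filter.Eventually.of_forall (fun y => ?_))
          change g0 (x0 * y) * g (b * y) = -(g0 (x0 * y) * g y)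
          rw [h2]; ring
        rw [h1, h3, abs_neg]
    have hdiff : |h (v * (b * x0)) - h (b * x0)| < Real.sqrt ρ * m := by
      have h1 : h (v * (b * x0)) - h (b * x0)
          = ∫ y, (g0 (v * (b * x0) * y) - g0 (b * x0 * y)) * g y ∂μ := by
        rw [hh, hGv, hGv, ← integral_sub (hintG g _) (hintG g _)]
        refine integral_congr_ae (Filter.Eventually.of_forall (fun y => ?_))
        change g0 (v * (b * x0) * y) * g y - g0 (b * x0 * y) * g y = _
        ring
      have h2 : |∫ y, (g0 (v * (b * x0) * y) - g0 (b * x0 * y)) * g y ∂μ|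
          ≤ ∫ y, ‖N.curry v - N.curry 1‖ * |g y| ∂μ := by
        refine le_trans (abs_integral_le_integral_abs) ?_
        refine integral_mono (hint _ ?_) ((hint _ hgabs).const_mul _) (fun y => ?_)
        · exact (((g0.continuous.comp (continuous_const.mul continuous_id)).sub
            (g0.continuous.comp (continuous_const.mul continuous_id))).mul g.continuous).abs
        · change |(g0 (v * (b * x0) * y) - g0 (b * x0 * y)) * g y| ≤ ‖N.curry v - N.curry 1‖ * |g y|
          rw [abs_mul]
          refine mul_le_mul_of_nonneg_right ?_ (abs_nonneg _)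
          have h3 := (N.curry v - N.curry 1).norm_coe_le_norm (b * x0 * y)
          have h4 : (N.curry v - N.curry 1) (b * x0 * y) = g0 (v * (b * x0) * y) - g0 (b * x0 * y) := by
            change g0 (v * (b * x0 * y)) - g0 (1 * (b * x0 * y)) = _
            rw [one_mul, mul_assoc v]
          rw [h4, Real.norm_eq_abs] at h3
          exact h3
      rw [h1]
      refine lt_of_le_of_lt h2 ?_
      rw [integral_const_mul]
      exact mul_lt_mul_of_pos_right hbV' hmpos
    rw [hxv, hx, zero_sub, abs_neg, habs] at hdiff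
    linarith
  -- mean zero
  have hmean : ∫ x, h x ∂μ = 0 := by
    have h1 : ∫ x, h x ∂μ = ∫ x, ∫ y, g0 (x * y) * g y ∂μ ∂μ := rfl
    have h2 := integral_integral_swap_of_hasCompactSupport (μ := μ) (ν := μ)
      (f := fun x y => g0 (x * y) * g y) (M g).continuous (HasCompactSupport.of_compactSpace _)
    rw [h1, h2]
    have h3 : ∀ y, ∫ x, g0 (x * y) * g y ∂μ = 0 := by
      intro y
      rw [integral_mul_const]
      have h4 : ∀ x, g0 (x * y) = (fun z => g0 z) (y * x) := fun x => by rw [hcomm x y]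
      simp only [h4]
      rw [htr (fun z => g0 z) y, hg0m, zero_mul]
    simp only [h3]
    simp
  rcases lt_or_gt_of_ne (hne 1) with hneg | hpos1
  · have hall : ∀ x, h x < 0 := by
      intro x
      by_contra hcon
      push Not at hcon
      obtain ⟨z, hz⟩ := mem_range_of_exists_le_of_exists_ge h.continuous ⟨1, hneg.le⟩ ⟨x, hcon⟩
      exact hne z hz
    have := hpos (fun x => - h x) h.continuous.neg (fun x => by have := hall x; linarith)
      ⟨1, by have := hall 1; exact (by linarith : (0:ℝ) < - h 1).ne'⟩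
    rw [integral_neg, hmean] at this
    simp at this
  · have hall : ∀ x, 0 < h x := by
      intro x
      by_contra hcon
      push Not at hcon
      obtain ⟨z, hz⟩ := mem_range_of_exists_le_of_exists_ge h.continuous ⟨x, hcon⟩ ⟨1, hpos1.le⟩
      exact hne z hz
    have := hpos (fun x => h x) h.continuous (fun x => (hall x).le) ⟨1, (hall 1).ne'⟩
    rw [hmean] at this
    exact lt_irrefl _ this

end BoolGroup

end Pool.Agent.Helper974.Moufang
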