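import Mathlib

set_option autoImplicit false

namespace Pool.Agent.Helper974.Moufang

/-- `G` with `mul`, left division, right division and unit `e` is a Moufang loop:
the loop laws and the Moufang identity `z (x (z y)) = ((z x) z) y` -/
structure IsMoufang {G : Type*} (mul ldiv rdiv : G → G → G) (e : G) : Prop where
  one_mul : ∀ x, mul e x = x
  mul_one : ∀ x, mul x e = x
  mul_ldiv : ∀ x y, mul x (ldiv x y) = y
  ldiv_mul : ∀ x y, ldiv x (mul x y) = y
  rdiv_mul : ∀ x y, mul (rdiv y x) x = y
  mul_rdiv : ∀ x y, rdiv (mul y x) x = y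
  moufang : ∀ x y z, mul z (mul x (mul z y)) = mul (mul (mul z x) z) y

namespace IsMoufang
variable {G : Type*} {mul ldiv rdiv : G → G → G} {e : G} (h : IsMoufang mul ldiv rdiv e)
include h


theorem lcan {x y z : G} (hh : mul x y = mul x z) : y = z := by
  have := congrArg (ldiv x) hh
  rwa [h.ldiv_mul, h.ldiv_mul] at this

theorem rcan {x y z : G} (hh : mul y x = mul z x) : y = z := by
  have := congrArg (fun w => rdiv w x) hh
  simp only [h.mul_rdiv] at this
  exact this

/-- flexible law -/
theorem flex (x y : G) : mul (mul x y) x = mul x (mul y x) := by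
  have := h.moufang y e x
  rw [h.mul_one, h.mul_one] at this
  exact this.symm

/-- the inverse -/
theorem lip (x z : G) : mul (ldiv x e) (mul x z) = z := by
  have := h.moufang (ldiv x e) z x
  rw [h.mul_ldiv, h.one_mul] at this
  exact h.lcan this

theorem inv_mul (x : G) : mul (ldiv x e) x = e := by
  have := h.lip x e
  rwa [h.mul_one] at this

theorem mul_inv (x : G) : mul x (ldiv x e) = e := h.mul_ldiv x e

theorem inv_inv (x : G) : ldiv (ldiv x e) e = x := by
  have h1 : mul (ldiv x e) (ldiv (ldiv x e) e) = e := h.mul_ldiv _ _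
  have h2 : mul (ldiv x e) x = e := h.inv_mul x
  exact h.lcan (h1.trans h2.symm)

theorem lip' (x z : G) : mul x (mul (ldiv x e) z) = z := by
  have := h.lip (ldiv x e) z
  rwa [h.inv_inv] at this

theorem rip (u x : G) : mul (mul u x) (ldiv x e) = u := by
  -- u = x y
  have h0 : mul x (ldiv x u) = u := h.mul_ldiv x u
  have h1 := h.moufang (ldiv x u) (ldiv x e) x
  rw [h.mul_ldiv x e, h.mul_one, h0] at h1
  exact h1.symm

theorem rip' (u x : G) : mul (mul u (ldiv x e)) x = u := by
  have := h.rip u (ldiv x e)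
  rwa [h.inv_inv] at this

theorem inv_mul_rev (x y : G) : ldiv (mul x y) e = mul (ldiv y e) (ldiv x e) := by
  -- (xy)^{-1} (xy) = e ; ((xy)^{-1}) x = y^{-1}
  have h1 : mul (ldiv (mul x y) e) (mul x y) = e := h.inv_mul _
  -- x = (xy) y^{-1}
  have h2 : mul (mul x y) (ldiv y e) = x := h.rip x y
  have h3 : mul (ldiv (mul x y) e) x = ldiv y e := by
    have := h.lip (mul x y) (ldiv y e)
    rw [h2] at this
    exact this
  have h4 := h.rip (ldiv (mul x y) e) x
  rw [h3] at h4
  exact h4.symm

/-- left Moufang: `(a b a) x = a (b (a x))` -/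
theorem left_m (a b x : G) : mul (mul a (mul b a)) x = mul a (mul b (mul a x)) := by
  rw [← h.flex]; exact (h.moufang b x a).symm

/-- right Moufang: `((x a) b) a = x (a b a)` -/
theorem right_m (a b x : G) : mul (mul (mul x a) b) a = mul x (mul a (mul b a)) := by
  have h1 := h.left_m (ldiv a e) (ldiv b e) (ldiv x e)
  have h2 := congrArg (fun w => ldiv w e) h1
  simp only [h.inv_mul_rev, h.inv_inv] at h2
  rw [← h.flex, ← h2]

/-- `(a y a) (a^{-1} w) = a (y w)` -/
theorem atp1 (a y w : G) : mul (mul a (mul y a)) (mul (ldiv a e) w) = mul a (mul y w) := by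
  rw [h.left_m, h.lip']

/-- `(u a^{-1}) (a v a) = (u v) a` -/
theorem atp2 (a u v : G) : mul (mul u (ldiv a e)) (mul a (mul v a)) = mul (mul u v) a := by
  rw [← h.right_m, h.rip']

/-- middle Moufang: `(a b) (y a) = a ((b y) a)` -/
theorem middle_m (a b y : G) : mul (mul a b) (mul y a) = mul a (mul (mul b y) a) := by
  -- (b y) a = (b a^{-1}) (a y a) ; a ( u w ) = (a u a)(a^{-1} w)
  rw [← h.atp2 a b y, ← h.atp1 a (mul b (ldiv a e)) (mul a (mul y a)), h.lip, h.rip']

theorem prod_m (a b x : G) : mul (mul a b) (mul x (mul a b)) = mul a (mul (mul b (mul x a)) b) := by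
  -- with p = a b, a = p b^{-1}
  have h1 : mul (mul b (mul x a)) b = mul (mul b x) (mul a b) := by
    rw [h.flex, ← h.middle_m]
  rw [h1]
  -- a ((b x) p), b = a^{-1} p
  have h2 : mul (ldiv a e) (mul a b) = b := h.lip a b
  have h3 : mul (mul (mul (ldiv a e) (mul a b)) x) (mul a b) = mul (ldiv a e) (mul (mul a b) (mul x (mul a b))) :=
    h.right_m (mul a b) x (ldiv a e)
  rw [h2] at h3
  rw [h3, h.lip']


end IsMoufang


namespace IsMoufang
variable {G : Type*} {mul ldiv rdiv : G → G → G} {e : G} (h : IsMoufang mul ldiv rdiv e)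
include h

theorem prod_m' (a b x : G) : mul (mul (mul b a) x) (mul b a) = mul (mul b (mul (mul a x) b)) a := by
  have h1 := h.prod_m (ldiv a e) (ldiv b e) (ldiv x e)
  have h2 := congrArg (fun w => ldiv w e) h1
  simp only [h.inv_mul_rev, h.inv_inv] at h2
  exact h2

theorem I2 (a b x : G) : mul b (mul a x) = mul (ldiv a e) (mul (mul a (mul b a)) x) := by
  rw [h.left_m, h.lip]

theorem I3 (a b x : G) : mul (mul x a) b = mul (mul x (mul a (mul b a))) (ldiv a e) := by
  rw [← h.right_m, h.rip]

theorem I4 (a b x : G) : mul b (mul (mul a x) a) = mul (mul (mul b a) x) a := by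
  rw [h.right_m, h.flex]

theorem I5 (a b x : G) : mul (mul a x) b = mul a (mul (mul x (mul b (ldiv a e))) a) := by
  rw [← h.middle_m, h.rip']

theorem I6 (a b x : G) : mul b (mul (mul x a) b) = mul (ldiv a e) (mul (mul (mul a b) x) (mul a b)) := by
  rw [h.flex (mul a b) x, h.prod_m, h.lip, h.flex]

theorem I7 (a b x : G) : mul (mul (mul a x) a) b = mul a (mul x (mul a b)) := by
  rw [h.flex, h.left_m]

theorem I8 (a b x : G) : mul b (mul (mul a x) b) = mul (mul (mul (mul b a) x) (mul b a)) (ldiv a e) := by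
  rw [h.prod_m', h.rip]

theorem I9 (a b x : G) : mul b (mul x a) = mul a (mul (mul (mul (ldiv a e) b) x) a) := by
  rw [← h.middle_m, h.lip']

theorem I1 (a b x : G) : mul b (mul (mul (mul (ldiv a e) x) (ldiv a e)) b) =
    mul a (mul (mul (mul (mul (mul (ldiv a e) b) (ldiv a e)) x) (mul (mul (ldiv a e) b) (ldiv a e))) a) := by
  have h1 := h.I8 (ldiv a e) b (mul x (ldiv a e))
  rw [h.inv_inv] at h1
  rw [h.flex (ldiv a e) x, h1]
  rw [h.flex (ldiv a e) b, h.flex (mul (ldiv a e) (mul b (ldiv a e))) x, h.prod_m (ldiv a e) (mul b (ldiv a e)) x]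
  rw [← h.flex a, h.lip']

end IsMoufang

/-- third class -/
def kk (i j : Fin 3) : Fin 3 := -(i + j)

def FF {G : Type*} (mul ldiv : G → G → G) (e : G) (i j : Fin 3) (a x : G) : G :=
  if j = i then mul a (mul (ldiv x e) a) else if j = i + 1 then ldiv (mul a x) e else ldiv (mul x a) e

theorem kk_kk (i j : Fin 3) : kk i (kk i j) = j := by revert i j; decide
theorem kk_kei (i j k : Fin 3) : kk j (kk i k) = kk i (kk (kk i j) k) := by revert i j k; decide


namespace IsMoufang
variable {G : Type*} {mul ldiv rdiv : G → G → G} {e : G} (h : IsMoufang mul ldiv rdiv e)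
include h

theorem FF_FF (i j : Fin 3) (a x : G) :
    FF mul ldiv e i (kk i j) a (FF mul ldiv e i j a x) = x := by
  fin_cases i <;> fin_cases j <;>
    simp (config := {decide := true}) only [FF, kk, if_true, if_false] <;>
    simp only [h.inv_mul_rev, h.inv_inv] <;>
    first
    | exact h.rip _ _
    | exact h.lip _ _
    | exact h.rip' _ _
    | exact h.lip' _ _
    | (rw [h.rip', h.lip'])

theorem FF_kei (i j k : Fin 3) (a b x : G) :
    FF mul ldiv e j (kk i k) b (FF mul ldiv e i k a x)
      = FF mul ldiv e i (kk (kk i j) k) a (FF mul ldiv e (kk i j) k (FF mul ldiv e i j a b) x) := by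
  fin_cases i <;> fin_cases j <;> fin_cases k <;>
    simp (config := {decide := true}) only [FF, kk, if_true, if_false] <;>
    simp only [h.inv_mul_rev, h.inv_inv] <;>
    first
    | exact h.I1 _ _ _
    | exact h.I2 _ _ _
    | exact h.I3 _ _ _
    | exact h.I4 _ _ _
    | exact h.I5 _ _ _
    | exact h.I6 _ _ _
    | exact h.I7 _ _ _
    | exact h.I8 _ _ _
    | exact h.I9 _ _ _

end IsMoufang
end Pool.Agent.Helper974.Moufang

namespace Pool.Agent.Helper974.Moufang

section Words
variable {Y X : Type*} {s : Y → X → X} {op : Y → Y → Y}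

theorem word_move (h2 : ∀ a b x, s a (s b x) = s (op a b) (s a x)) (a : Y) (l : List Y) (v : X) :
    s a (l.foldr s v) = (l.map (op a)).foldr s (s a v) := by
  induction l with
  | nil => rfl
  | cons b t ih => simp only [List.foldr_cons, List.map_cons]; rw [h2, ih]

theorem word_red1 (h1 : ∀ a x, s a (s a x) = x)
    (h2 : ∀ a b x, s a (s b x) = s (op a b) (s a x)) (v : X) (a b : Y) (l2 l3 : List Y)
    (hab : s b v = s a v) :
    (a :: (l2 ++ b :: l3)).foldr s v = ((l2 ++ l3.map (op b)).map (op a)).foldr s v := by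
  have e1 : (a :: (l2 ++ b :: l3)).foldr s v = s a ((l2 ++ l3.map (op b)).foldr s (s b v)) := by
    simp only [List.foldr_cons, List.foldr_append]
    rw [word_move h2 b l3 v]
  rw [e1, word_move h2, hab, h1]

theorem word_red (h1 : ∀ a x, s a (s a x) = x)
    (h2 : ∀ a b x, s a (s b x) = s (op a b) (s a x)) (v : X) :
    ∀ n : ℕ, ∀ l : List Y, l.length ≤ n → ∃ l' : List Y, l'.length ≤ l.length ∧
      (l'.map (fun a => s a v)).Nodup ∧ l.foldr s v = l'.foldr s v := by
  intro n
  induction n with
  | zero =>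
    intro l hl
    have : l = [] := List.length_eq_zero_iff.mp (Nat.le_zero.mp hl)
    subst this
    exact ⟨[], le_refl _, by simp, rfl⟩
  | succ n ih =>
    intro l hl
    cases l with
    | nil => exact ⟨[], le_refl _, by simp, rfl⟩
    | cons a t =>
      have ht : t.length ≤ n := by simpa using hl
      obtain ⟨t', ht1, ht2, ht3⟩ := ih t ht
      by_cases hmem : s a v ∈ t'.map (fun a => s a v)
      · obtain ⟨b, hb, hbv⟩ := List.mem_map.mp hmem
        obtain ⟨l2, l3, rfl⟩ := List.append_of_mem hb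
        have hlen : ((l2 ++ l3.map (op b)).map (op a)).length ≤ n := by
          have : (l2 ++ b :: l3).length ≤ n := le_trans ht1 ht
          simp only [List.length_append, List.length_cons, List.length_map] at this ⊢
          omega
        obtain ⟨l', h3, h4, h5⟩ := ih _ hlen
        refine ⟨l', ?_, h4, ?_⟩
        · simp only [List.length_append, List.length_cons, List.length_map] at h3 ht1 ⊢
          omega
        · rw [← h5, ← word_red1 h1 h2 v a b l2 l3 hbv, List.foldr_cons, List.foldr_cons, ht3]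
      · refine ⟨a :: t', ?_, ?_, ?_⟩
        · simp only [List.length_cons]; omega
        · rw [List.map_cons, List.nodup_cons]; exact ⟨hmem, ht2⟩
        · rw [List.foldr_cons, List.foldr_cons, ht3]

/-- local Dietzmann lemma: all orbits are finite -/
theorem orbit_finite (h1 : ∀ a x, s a (s a x) = x)
    (h2 : ∀ a b x, s a (s b x) = s (op a b) (s a x)) (P : X → Prop)
    (hP : ∀ a x, P x → P (s a x)) (hfin : ∀ x, P x → (Set.range (fun a => s a x)).Finite)
    (v : X) (hv : P v) : (Set.range (fun l : List Y => l.foldr s v)).Finite := by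
  classical
  set F := (hfin v hv).toFinset with hF
  have hlen : ∀ l : List Y, ∃ l' : List Y, l'.length ≤ F.card ∧ l.foldr s v = l'.foldr s v := by
    intro l
    obtain ⟨l', _, h4, h5⟩ := word_red h1 h2 v l.length l le_rfl
    refine ⟨l', ?_, h5⟩
    have h6 : (l'.map (fun a => s a v)).toFinset ⊆ F := by
      intro x hx
      rw [List.mem_toFinset, List.mem_map] at hx
      obtain ⟨a, _, ha⟩ := hx
      rw [hF, Set.Finite.mem_toFinset]
      exact ⟨a, ha⟩
    have h7 := Finset.card_le_card h6
    rw [List.toFinset_card_of_nodup h4, List.length_map] at h7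
    exact h7
  have hbd : ∀ N : ℕ, {x | ∃ l : List Y, l.length ≤ N ∧ x = l.foldr s v}.Finite ∧
      ∀ x ∈ {x | ∃ l : List Y, l.length ≤ N ∧ x = l.foldr s v}, P x := by
    intro N
    induction N with
    | zero =>
      have : {x | ∃ l : List Y, l.length ≤ 0 ∧ x = l.foldr s v} = {v} := by
        ext x
        rw [Set.mem_singleton_iff]
        constructor
        · rintro ⟨l, hl, rfl⟩
          have : l = [] := List.length_eq_zero_iff.mp (Nat.le_zero.mp hl)
          subst this; rfl
        · rintro rfl; exact ⟨[], le_refl _, rfl⟩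
      rw [this]
      exact ⟨Set.finite_singleton v, fun x hx => by rw [Set.mem_singleton_iff.mp hx]; exact hv⟩
    | succ N ih =>
      have hsub : {x | ∃ l : List Y, l.length ≤ N + 1 ∧ x = l.foldr s v} ⊆
          {v} ∪ ⋃ x ∈ {x | ∃ l : List Y, l.length ≤ N ∧ x = l.foldr s v}, Set.range (fun a => s a x) := by
        rintro x ⟨l, hl, rfl⟩
        cases l with
        | nil => left; rfl
        | cons a t =>
          right
          simp only [Set.mem_iUnion]
          exact ⟨t.foldr s v, ⟨t, by simpa using hl, rfl⟩, a, rfl⟩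
      constructor
      · refine Set.Finite.subset ?_ hsub
        refine (Set.finite_singleton v).union ?_
        exact ih.1.biUnion (fun x hx => hfin x (ih.2 x hx))
      · intro x hx
        have := hsub hx
        rcases this with h | h
        · rw [Set.mem_singleton_iff.mp h]; exact hv
        · simp only [Set.mem_iUnion] at h
          obtain ⟨y, hy, a, rfl⟩ := h
          exact hP a y (ih.2 y hy)
  refine (hbd F.card).1.subset ?_
  rintro x ⟨l, rfl⟩
  obtain ⟨l', h3, h4⟩ := hlen l
  exact ⟨l', h3, h4⟩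

end Words

/-- finitely many sections of a clopen set -/
theorem sections_finite {A B C : Type*} [TopologicalSpace A] [CompactSpace A]
    [TopologicalSpace B] [CompactSpace B] [TopologicalSpace C]
    (f : A → B → C) (hf : Continuous (fun p : A × B => f p.1 p.2)) (v : Set C) (hv : IsClopen v) :
    (Set.range (fun a => {b | f a b ∈ v})).Finite := by
  have hloc : IsLocallyConstant (fun a => {b | f a b ∈ v}) := by
    rw [IsLocallyConstant.iff_eventually_eq]
    intro a0
    have hK : ∀ᶠ a in nhds a0, ∀ b ∈ (Set.univ : Set B), (f a b ∈ v ↔ f a0 b ∈ v) := by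
      refine isCompact_univ.eventually_forall_of_forall_eventually (fun b _ => ?_)
      by_cases hb : f a0 b ∈ v
      · have h1 : ∀ᶠ z : A × B in nhds (a0, b), f z.1 z.2 ∈ v :=
          hf.continuousAt.eventually (hv.isOpen.mem_nhds hb)
        have h2 : ∀ᶠ z : A × B in nhds (a0, b), f a0 z.2 ∈ v := by
          have hc : Continuous (fun z : A × B => f a0 z.2) :=
            hf.comp (continuous_const.prodMk continuous_snd)
          exact hc.continuousAt.eventually (hv.isOpen.mem_nhds hb)
        filter_upwards [h1, h2] with z hz1 hz2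
        exact ⟨fun _ => hz2, fun _ => hz1⟩
      · have hb' : f a0 b ∈ vᶜ := hb
        have h1 : ∀ᶠ z : A × B in nhds (a0, b), f z.1 z.2 ∈ vᶜ :=
          hf.continuousAt.eventually (hv.compl.isOpen.mem_nhds hb')
        have h2 : ∀ᶠ z : A × B in nhds (a0, b), f a0 z.2 ∈ vᶜ := by
          have hc : Continuous (fun z : A × B => f a0 z.2) :=
            hf.comp (continuous_const.prodMk continuous_snd)
          exact hc.continuousAt.eventually (hv.compl.isOpen.mem_nhds hb')
        filter_upwards [h1, h2] with z hz1 hz2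
        exact ⟨fun h => absurd h hz1, fun h => absurd h hz2⟩
    filter_upwards [hK] with a ha
    ext b
    exact ha b (Set.mem_univ b)
  exact hloc.range_finite

end Pool.Agent.Helper974.Moufang


namespace Pool.Agent.Helper974.Moufang

section Top
variable {G : Type*} {mul ldiv rdiv : G → G → G} {e : G}

/-- action of the reflections on triples of sets -/
def ss (mul ldiv : G → G → G) (e : G) (p : Fin 3 × G) (v : Fin 3 → Set G) : Fin 3 → Set G :=
  fun j => {x | FF mul ldiv e p.1 j p.2 x ∈ v (kk p.1 j)}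

def opp (mul ldiv : G → G → G) (e : G) (p q : Fin 3 × G) : Fin 3 × G :=
  (kk p.1 q.1, FF mul ldiv e p.1 q.1 p.2 q.2)

theorem ss_ss (h : IsMoufang mul ldiv rdiv e) (p : Fin 3 × G) (v : Fin 3 → Set G) :
    ss mul ldiv e p (ss mul ldiv e p v) = v := by
  funext j
  ext x
  change FF mul ldiv e p.1 (kk p.1 j) p.2 (FF mul ldiv e p.1 j p.2 x) ∈ v (kk p.1 (kk p.1 j)) ↔ x ∈ v j
  rw [h.FF_FF, kk_kk]

theorem ss_op (h : IsMoufang mul ldiv rdiv e) (p q : Fin 3 × G) (v : Fin 3 → Set G) :
    ss mul ldiv e p (ss mul ldiv e q v) = ss mul ldiv e (opp mul ldiv e p q) (ss mul ldiv e p v) := by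
  funext k
  ext x
  change FF mul ldiv e q.1 (kk p.1 k) q.2 (FF mul ldiv e p.1 k p.2 x) ∈ v (kk q.1 (kk p.1 k)) ↔
    FF mul ldiv e p.1 (kk (kk p.1 q.1) k) p.2
      (FF mul ldiv e (kk p.1 q.1) k (FF mul ldiv e p.1 q.1 p.2 q.2) x) ∈ v (kk p.1 (kk (kk p.1 q.1) k))
  rw [h.FF_kei, kk_kei]

variable [TopologicalSpace G]

theorem FF_cont (hm : Continuous (fun p : G × G => mul p.1 p.2))
    (hl : Continuous (fun p : G × G => ldiv p.1 p.2)) (i j : Fin 3) :
    Continuous (fun p : G × G => FF mul ldiv e i j p.1 p.2) := by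
  have hinv : Continuous (fun x : G => ldiv x e) := hl.comp (continuous_id.prodMk continuous_const)
  unfold FF
  split_ifs
  · exact hm.comp (continuous_fst.prodMk (hm.comp ((hinv.comp continuous_snd).prodMk continuous_fst)))
  · exact hinv.comp hm
  · exact hinv.comp (hm.comp (continuous_snd.prodMk continuous_fst))

theorem clopen_family [CompactSpace G] (h : IsMoufang mul ldiv rdiv e)
    (hm : Continuous (fun p : G × G => mul p.1 p.2))
    (hl : Continuous (fun p : G × G => ldiv p.1 p.2)) (u : Set G) (hu : IsClopen u) :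
    ∃ U : Set (Set G), U.Finite ∧ u ∈ U ∧ (∀ w ∈ U, IsClopen w) ∧
      (∀ w ∈ U, ∀ a, {x | mul a x ∈ w} ∈ U) ∧ (∀ w ∈ U, ∀ a, {x | mul x a ∈ w} ∈ U) := by
  set P : (Fin 3 → Set G) → Prop := fun v => ∀ k, IsClopen (v k) with hPdef
  have hP : ∀ p v, P v → P (ss mul ldiv e p v) := by
    intro p v hv j
    have hc : Continuous (fun x => FF mul ldiv e p.1 j p.2 x) :=
      (FF_cont hm hl p.1 j).comp (continuous_const.prodMk continuous_id)
    exact (hv (kk p.1 j)).preimage hc
  have hfin : ∀ v, P v → (Set.range (fun p => ss mul ldiv e p v)).Finite := by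
    intro v hv
    have hsub : Set.range (fun p => ss mul ldiv e p v) ⊆
        ⋃ i : Fin 3, Set.pi Set.univ (fun j => Set.range (fun a => {x | FF mul ldiv e i j a x ∈ v (kk i j)})) := by
      rintro _ ⟨p, rfl⟩
      rw [Set.mem_iUnion]
      refine ⟨p.1, ?_⟩
      intro j _
      exact ⟨p.2, rfl⟩
    refine Set.Finite.subset (Set.finite_iUnion (fun i => ?_)) hsub
    refine Set.Finite.pi' (fun j => ?_) |>.subset (fun w hw j => hw j (Set.mem_univ j))
    exact sections_finite _ (FF_cont hm hl i j) _ (hv _)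
  set v0 : Fin 3 → Set G := fun _ => u with hv0
  have hPv0 : P v0 := fun _ => hu
  have horb := orbit_finite (s := ss mul ldiv e) (op := opp mul ldiv e)
    (fun p v => ss_ss h p v) (fun p q v => ss_op h p q v) P hP hfin v0 hPv0
  have hPorb : ∀ l : List (Fin 3 × G), P (l.foldr (ss mul ldiv e) v0) := by
    intro l
    induction l with
    | nil => exact hPv0
    | cons p t ih => exact hP p _ ih
  refine ⟨(fun w : Fin 3 → Set G => w 2) '' Set.range (fun l : List (Fin 3 × G) => l.foldr (ss mul ldiv e) v0),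
    horb.image _, ⟨v0, ⟨[], rfl⟩, rfl⟩, ?_, ?_, ?_⟩
  · rintro _ ⟨_, ⟨l, rfl⟩, rfl⟩
    exact hPorb l 2
  · rintro _ ⟨_, ⟨l, rfl⟩, rfl⟩ a
    refine ⟨((1, a) :: (1, e) :: l).foldr (ss mul ldiv e) v0, ⟨_, rfl⟩, ?_⟩
    ext x
    change FF mul ldiv e 1 (kk 1 2) e (FF mul ldiv e 1 2 a x) ∈ (l.foldr (ss mul ldiv e) v0) (kk 1 (kk 1 2)) ↔
      mul a x ∈ (l.foldr (ss mul ldiv e) v0) 2
    have e1 : FF mul ldiv e 1 (kk 1 2) e (FF mul ldiv e 1 2 a x) = mul a x := by
      simp (config := {decide := true}) only [FF, kk, if_true, if_false]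
      rw [h.mul_one, h.inv_inv]
    rw [e1, kk_kk]
  · rintro _ ⟨_, ⟨l, rfl⟩, rfl⟩ a
    refine ⟨((0, a) :: (0, e) :: l).foldr (ss mul ldiv e) v0, ⟨_, rfl⟩, ?_⟩
    ext x
    change FF mul ldiv e 0 (kk 0 2) e (FF mul ldiv e 0 2 a x) ∈ (l.foldr (ss mul ldiv e) v0) (kk 0 (kk 0 2)) ↔
      mul x a ∈ (l.foldr (ss mul ldiv e) v0) 2
    have e1 : FF mul ldiv e 0 (kk 0 2) e (FF mul ldiv e 0 2 a x) = mul x a := by
      simp (config := {decide := true}) only [FF, kk, if_true, if_false]
      rw [h.one_mul, h.inv_inv]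
    rw [e1, kk_kk]

end Top
end Pool.Agent.Helper974.Moufang
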