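import Mathlib

set_option autoImplicit false

namespace Pool.Agent.Helper974.Moufang

section Integral
variable {G : Type*}

/-- the equivalence relation given by a family of sets -/
def famSetoid (V : Set (Set G)) : Setoid G where
  r x y := ∀ w ∈ V, (x ∈ w ↔ y ∈ w)
  iseqv := ⟨fun _ _ _ => Iff.rfl, fun h w hw => (h w hw).symm, fun h1 h2 w hw => (h1 w hw).trans (h2 w hw)⟩

theorem fam_finite (V : Set (Set G)) (hV : V.Finite) : Finite (Quotient (famSetoid V)) := by
  have : Finite V := hV
  refine Finite.of_injective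
    (Quotient.lift (s := famSetoid V) (fun x => (fun w : V => x ∈ (w : Set G))) ?_) ?_
  · intro x y hxy
    funext w
    exact propext (hxy w.1 w.2)
  · intro q1 q2
    refine Quotient.inductionOn₂ q1 q2 ?_
    intro x y hxy
    refine Quotient.sound ?_
    intro w hw
    have := congrFun hxy ⟨w, hw⟩
    exact iff_of_eq this

open Classical in
/-- average over representatives of the classes -/
noncomputable def avg (V : Set (Set G)) (f : G → ℝ) : ℝ :=
  if h : Finite (Quotient (famSetoid V)) then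
    letI := @Fintype.ofFinite _ h
    (∑ q : Quotient (famSetoid V), f q.out) / (Fintype.card (Quotient (famSetoid V)) : ℝ)
  else 0

theorem avg_add (V : Set (Set G)) (f g : G → ℝ) : avg V (fun x => f x + g x) = avg V f + avg V g := by
  unfold avg
  split_ifs
  · rw [Finset.sum_add_distrib, add_div]
  · simp

theorem avg_smul (V : Set (Set G)) (c : ℝ) (f : G → ℝ) : avg V (fun x => c * f x) = c * avg V f := by
  unfold avg
  split_ifs
  · rw [← Finset.mul_sum, mul_div_assoc]
  · simp

theorem avg_nonneg (V : Set (Set G)) (f : G → ℝ) (hf : ∀ x, 0 ≤ f x) : 0 ≤ avg V f := by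
  unfold avg
  split_ifs
  · exact div_nonneg (Finset.sum_nonneg (fun q _ => hf _)) (Nat.cast_nonneg _)
  · exact le_refl _

theorem avg_one [Nonempty G] (V : Set (Set G)) (hV : V.Finite) : avg V (fun _ => 1) = 1 := by
  unfold avg
  have hfin := fam_finite V hV
  rw [dif_pos hfin]
  letI := @Fintype.ofFinite _ hfin
  have hne : Nonempty (Quotient (famSetoid V)) := ⟨Quotient.mk _ (Classical.arbitrary G)⟩
  have hpos : (0 : ℝ) < (Fintype.card (Quotient (famSetoid V)) : ℝ) := by
    exact_mod_cast Fintype.card_pos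
  rw [Finset.sum_const, Finset.card_univ, nsmul_eq_mul, mul_one]
  exact div_self hpos.ne'

theorem avg_mono (V : Set (Set G)) (f g : G → ℝ) (hf : ∀ x, f x ≤ g x) : avg V f ≤ avg V g := by
  have h1 := avg_nonneg V (fun x => g x + (-1) * f x) (fun x => by have := hf x; linarith)
  have h2 := avg_add V g (fun x => (-1) * f x)
  have h3 := avg_smul V (-1) f
  linarith

theorem avg_inv [Nonempty G] (V : Set (Set G)) (hV : V.Finite) (T T' : G → G)
    (hTT' : ∀ x, T (T' x) = x) (hT'T : ∀ x, T' (T x) = x)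
    (hT : ∀ w ∈ V, {x | T x ∈ w} ∈ V) (hT' : ∀ w ∈ V, {x | T' x ∈ w} ∈ V)
    (f : G → ℝ) (ε : ℝ) (hf : ∀ x y, (∀ w ∈ V, (x ∈ w ↔ y ∈ w)) → |f x - f y| ≤ ε) :
    |avg V (fun x => f (T x)) - avg V f| ≤ ε := by
  have hfin := fam_finite V hV
  unfold avg
  rw [dif_pos hfin, dif_pos hfin]
  letI := @Fintype.ofFinite _ hfin
  have hne : Nonempty (Quotient (famSetoid V)) := ⟨Quotient.mk _ (Classical.arbitrary G)⟩
  have hpos : (0 : ℝ) < (Fintype.card (Quotient (famSetoid V)) : ℝ) := by
    exact_mod_cast Fintype.card_pos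
  have hTr : ∀ x y, (famSetoid V).r x y → (famSetoid V).r (T x) (T y) :=
    fun x y hxy w hw => hxy _ (hT w hw)
  have hTr' : ∀ x y, (famSetoid V).r x y → (famSetoid V).r (T' x) (T' y) :=
    fun x y hxy w hw => hxy _ (hT' w hw)
  let E : Quotient (famSetoid V) ≃ Quotient (famSetoid V) :=
    { toFun := Quotient.map T (fun x y hxy => hTr x y hxy)
      invFun := Quotient.map T' (fun x y hxy => hTr' x y hxy)
      left_inv := by
        intro q
        induction q using Quotient.inductionOn with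
        | h x => rw [Quotient.map_mk, Quotient.map_mk, hT'T]
      right_inv := by
        intro q
        induction q using Quotient.inductionOn with
        | h x => rw [Quotient.map_mk, Quotient.map_mk, hTT'] }
  have h1 : ∑ q : Quotient (famSetoid V), f q.out = ∑ q : Quotient (famSetoid V), f (E q).out :=
    (Equiv.sum_comp E (fun q => f q.out)).symm
  rw [h1, ← sub_div, ← Finset.sum_sub_distrib, abs_div, abs_of_pos hpos, div_le_iff₀ hpos]
  refine le_trans (Finset.abs_sum_le_sum_abs _ _) ?_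
  refine le_trans (Finset.sum_le_card_nsmul _ _ ε ?_) ?_
  · intro q _
    refine hf _ _ ?_
    have h2 : (famSetoid V).r (T q.out) (E q).out := by
      have h3 : Quotient.mk (famSetoid V) (T q.out) = Quotient.mk (famSetoid V) (E q).out := by
        rw [Quotient.out_eq]
        change _ = Quotient.map T (fun x y hxy => hTr x y hxy) q
        conv_rhs => rw [← Quotient.out_eq q]
        rw [Quotient.map_mk]
      exact Quotient.exact h3
    exact h2
  · rw [Finset.card_univ, nsmul_eq_mul, mul_comm]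

variable [TopologicalSpace G]

theorem exists_small [CompactSpace G] [T2Space G] [TotallyDisconnectedSpace G]
    (f : C(G, ℝ)) (ε : ℝ) (hε : 0 < ε) :
    ∃ S : Finset {u : Set G // IsClopen u}, ∀ x y, (∀ w ∈ S, (x ∈ w.1 ↔ y ∈ w.1)) → |f x - f y| ≤ ε := by
  have h1 : ∀ x : G, ∃ u : Set G, IsClopen u ∧ x ∈ u ∧ ∀ y ∈ u, |f y - f x| < ε / 2 := by
    intro x
    have ho : IsOpen {y | |f y - f x| < ε / 2} := by
      have : Continuous (fun y => |f y - f x|) := (f.continuous.sub continuous_const).abs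
      exact isOpen_lt this continuous_const
    have hx : x ∈ {y | |f y - f x| < ε / 2} := by
      change |f x - f x| < ε / 2
      rw [sub_self, abs_zero]; linarith
    obtain ⟨u, hu, hxu, hsub⟩ := compact_exists_isClopen_in_isOpen ho hx
    exact ⟨u, hu, hxu, fun y hy => hsub hy⟩
  choose u hu hxu hsub using h1
  obtain ⟨t, ht⟩ := isCompact_univ.elim_finite_subcover u (fun x => (hu x).isOpen)
    (fun x _ => Set.mem_iUnion.mpr ⟨x, hxu x⟩)
  classical
  refine ⟨t.image (fun x => ⟨u x, hu x⟩), fun x y hxy => ?_⟩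
  have hx := ht (Set.mem_univ x)
  simp only [Set.mem_iUnion] at hx
  obtain ⟨z, hz, hxz⟩ := hx
  have hyz : y ∈ u z := (hxy ⟨u z, hu z⟩ (Finset.mem_image_of_mem _ hz)).mp hxz
  have h2 := hsub z x hxz
  have h3 := hsub z y hyz
  rw [abs_lt] at h2 h3
  rw [abs_le]
  constructor <;> linarith [h2.1, h2.2, h3.1, h3.2]

theorem exists_integral [Nonempty G] [CompactSpace G] [T2Space G] [TotallyDisconnectedSpace G]
    {κ : Type*} (T : κ → G → G) (hTc : ∀ k, Continuous (T k))
    (hinv : ∀ k, ∃ k', (∀ x, T k (T k' x) = x) ∧ ∀ x, T k' (T k x) = x)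
    (hfam : ∀ u : Set G, IsClopen u → ∃ U : Set (Set G), U.Finite ∧ u ∈ U ∧
      ∀ w ∈ U, ∀ k, {x | T k x ∈ w} ∈ U) :
    ∃ I : C(G, ℝ) →ₗ[ℝ] ℝ, I 1 = 1 ∧ (∀ f : C(G, ℝ), (∀ x, 0 ≤ f x) → 0 ≤ I f) ∧
      ∀ k, ∀ f : C(G, ℝ), I (f.comp ⟨T k, hTc k⟩) = I f := by
  classical
  have hfam' : ∀ u : {u : Set G // IsClopen u}, ∃ U : Set (Set G), U.Finite ∧ u.1 ∈ U ∧
      ∀ w ∈ U, ∀ k, {x | T k x ∈ w} ∈ U := fun u => hfam u.1 u.2
  choose U hUf hUm hUc using hfam'
  set V : Finset {u : Set G // IsClopen u} → Set (Set G) := fun S => ⋃ u ∈ S, U u with hV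
  have hVf : ∀ S, (V S).Finite := by
    intro S
    rw [hV]
    exact Set.Finite.biUnion S.finite_toSet (fun u _ => hUf u)
  have hVc : ∀ S, ∀ w ∈ V S, ∀ k, {x | T k x ∈ w} ∈ V S := by
    intro S w hw k
    rw [hV] at hw ⊢
    simp only [Set.mem_iUnion] at hw ⊢
    obtain ⟨u, hu, hwu⟩ := hw
    exact ⟨u, hu, hUc u w hwu k⟩
  set F : Ultrafilter (Finset {u : Set G // IsClopen u}) := Ultrafilter.of Filter.atTop with hF
  have hFle : (F : Filter (Finset {u : Set G // IsClopen u})) ≤ Filter.atTop := Ultrafilter.of_le _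
  have hlim : ∀ f : C(G, ℝ), ∃ c : ℝ, Filter.Tendsto (fun S => avg (V S) f) F (nhds c) := by
    intro f
    have hb : ∀ S, avg (V S) f ∈ Set.Icc (-‖f‖) ‖f‖ := by
      intro S
      have h1 : avg (V S) (fun _ => 1) = 1 := avg_one (V S) (hVf S)
      constructor
      · have h2 := avg_mono (V S) (fun _ => (-‖f‖) * 1) f (fun x => by
          have := (abs_le.mp (f.norm_coe_le_norm x)).1; linarith)
        rw [avg_smul (V S) (-‖f‖) (fun _ => 1), h1] at h2
        linarith
      · have h2 := avg_mono (V S) f (fun _ => ‖f‖ * 1) (fun x => by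
          have := (abs_le.mp (f.norm_coe_le_norm x)).2; linarith)
        rw [avg_smul (V S) (‖f‖) (fun _ => 1), h1] at h2
        linarith
    have hcpt : IsCompact (Set.Icc (-‖f‖) ‖f‖) := isCompact_Icc
    obtain ⟨c, _, hc⟩ := hcpt.ultrafilter_le_nhds (F.map (fun S => avg (V S) f)) (by
      rw [Filter.le_principal_iff]
      exact Filter.mem_map.mpr (Filter.Eventually.of_forall hb))
    exact ⟨c, hc⟩
  choose c hc using hlim
  have hadd : ∀ f g : C(G, ℝ), c (f + g) = c f + c g := by
    intro f g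
    refine tendsto_nhds_unique (hc (f + g)) ?_
    have := (hc f).add (hc g)
    refine this.congr (fun S => ?_)
    exact (avg_add (V S) f g).symm
  have hsm : ∀ (r : ℝ) (f : C(G, ℝ)), c (r • f) = r * c f := by
    intro r f
    refine tendsto_nhds_unique (hc (r • f)) ?_
    have := (hc f).const_mul r
    refine this.congr (fun S => ?_)
    exact (avg_smul (V S) r f).symm
  have hsm' : ∀ (r : ℝ) (f : C(G, ℝ)), c (r • f) = (RingHom.id ℝ) r • c f := by
    intro r f
    rw [hsm, RingHom.id_apply, smul_eq_mul]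
  refine ⟨{ toFun := c, map_add' := hadd, map_smul' := hsm' }, ?_, ?_, ?_⟩
  · change c 1 = 1
    refine tendsto_nhds_unique (hc 1) ?_
    refine tendsto_const_nhds.congr (fun S => ?_)
    exact (avg_one (V S) (hVf S)).symm
  · intro f hf
    change 0 ≤ c f
    exact ge_of_tendsto' (hc f) (fun S => avg_nonneg (V S) f hf)
  · intro k f
    change c _ = c f
    obtain ⟨k', hk1, hk2⟩ := hinv k
    have h0 : Filter.Tendsto (fun S => avg (V S) (fun x => f (T k x)) - avg (V S) f) F (nhds 0) := by
      rw [Metric.tendsto_nhds]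
      intro ε hε
      obtain ⟨S0, hS0⟩ := exists_small f (ε / 2) (by linarith)
      have hev : ∀ᶠ S in (F : Filter (Finset {u : Set G // IsClopen u})), S0 ≤ S :=
        hFle (Filter.eventually_ge_atTop S0)
      filter_upwards [hev] with S hS
      rw [Real.dist_eq, sub_zero]
      refine lt_of_le_of_lt (avg_inv (V S) (hVf S) (T k) (T k') hk1 hk2
        (fun w hw => hVc S w hw k) (fun w hw => hVc S w hw k') f (ε / 2) ?_) (by linarith)
      intro x y hxy
      refine hS0 x y (fun w hw => hxy w.1 ?_)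
      rw [hV]
      simp only [Set.mem_iUnion]
      exact ⟨w, hS hw, hUm w⟩
    have h1 := (hc (f.comp ⟨T k, hTc k⟩)).sub (hc f)
    have h2 : c (f.comp ⟨T k, hTc k⟩) - c f = 0 := tendsto_nhds_unique h1 h0
    linarith

end Integral
end Pool.Agent.Helper974.Moufang
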