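import Mathlib
import Pool.Agent.Helper974.Moufang.Basic
import Pool.Agent.Helper974.Moufang.Integral

set_option autoImplicit false

namespace Pool.Agent.Helper974.Moufang

section Comp
variable {G : Type*} [TopologicalSpace G]

theorem exists_small_comp [CompactSpace G] [T2Space G] (f : C(G, ℝ))
    (hf : ∀ x y : G, connectedComponent x = connectedComponent y → f x = f y)
    (ε : ℝ) (hε : 0 < ε) :
    ∃ S : Finset {u : Set G // IsClopen u}, ∀ x y, (∀ w ∈ S, (x ∈ w.1 ↔ y ∈ w.1)) → |f x - f y| ≤ ε := by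
  let g : ConnectedComponents G → ℝ := fun q => f (Quotient.out q)
  have hg : ∀ x : G, g (ConnectedComponents.mk x) = f x := by
    intro x
    refine hf _ _ ?_
    have h1 : ConnectedComponents.mk (Quotient.out (ConnectedComponents.mk x)) = ConnectedComponents.mk x :=
      Quotient.out_eq _
    exact ConnectedComponents.coe_eq_coe.mp h1
  have hgc : Continuous g := by
    rw [ConnectedComponents.isQuotientMap_coe.continuous_iff]
    have : g ∘ ConnectedComponents.mk = f := by
      funext x
      exact hg x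
    rw [this]
    exact f.continuous
  obtain ⟨S, hS⟩ := exists_small (⟨g, hgc⟩ : C(ConnectedComponents G, ℝ)) ε hε
  classical
  refine ⟨S.image (fun w => ⟨ConnectedComponents.mk ⁻¹' w.1,
    w.2.preimage ConnectedComponents.continuous_coe⟩), fun x y hxy => ?_⟩
  have := hS (ConnectedComponents.mk x) (ConnectedComponents.mk y) (fun w hw => by
    have := hxy _ (Finset.mem_image_of_mem _ hw)
    exact this)
  change |g (ConnectedComponents.mk x) - g (ConnectedComponents.mk y)| ≤ ε at this
  rwa [hg, hg] at this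

theorem exists_integral_comp [Nonempty G] [CompactSpace G] [T2Space G]
    {κ : Type*} (T : κ → G → G) (hTc : ∀ k, Continuous (T k))
    (hinv : ∀ k, ∃ k', (∀ x, T k (T k' x) = x) ∧ ∀ x, T k' (T k x) = x)
    (hfam : ∀ u : Set G, IsClopen u → ∃ U : Set (Set G), U.Finite ∧ u ∈ U ∧
      ∀ w ∈ U, ∀ k, {x | T k x ∈ w} ∈ U) :
    ∃ I : C(G, ℝ) →ₗ[ℝ] ℝ, I 1 = 1 ∧ (∀ f : C(G, ℝ), (∀ x, 0 ≤ f x) → 0 ≤ I f) ∧
      ∀ k, ∀ f : C(G, ℝ), (∀ x y : G, connectedComponent x = connectedComponent y → f x = f y) →
        I (f.comp ⟨T k, hTc k⟩) = I f := by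
  classical
  have hfam' : ∀ u : {u : Set G // IsClopen u}, ∃ U : Set (Set G), U.Finite ∧ u.1 ∈ U ∧
      ∀ w ∈ U, ∀ k, {x | T k x ∈ w} ∈ U := fun u => hfam u.1 u.2
  choose U hUf hUm hUc using hfam'
  set V : Finset {u : Set G // IsClopen u} → Set (Set G) := fun S => ⋃ u ∈ S, U u with hV
  have hVf : ∀ S, (V S).Finite := by
    intro S
    rw [hV]
    exact Set.Finite.biUnion S.finite_toSet (fun u _ => hUf u)
  have hVc : ∀ S, ∀ w ∈ V S, ∀ k, {x | T k x ∈ w} ∈ V S := by
    intro S w hw k
    rw [hV] at hw ⊢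
    simp only [Set.mem_iUnion] at hw ⊢
    obtain ⟨u, hu, hwu⟩ := hw
    exact ⟨u, hu, hUc u w hwu k⟩
  set F : Ultrafilter (Finset {u : Set G // IsClopen u}) := Ultrafilter.of Filter.atTop with hF
  have hFle : (F : Filter (Finset {u : Set G // IsClopen u})) ≤ Filter.atTop := Ultrafilter.of_le _
  have hlim : ∀ f : C(G, ℝ), ∃ c : ℝ, Filter.Tendsto (fun S => avg (V S) f) F (nhds c) := by
    intro f
    have hb : ∀ S, avg (V S) f ∈ Set.Icc (-‖f‖) ‖f‖ := by
      intro S
      have h1 : avg (V S) (fun _ => 1) = 1 := avg_one (V S) (hVf S)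
      constructor
      · have h2 := avg_mono (V S) (fun _ => (-‖f‖) * 1) f (fun x => by
          have := (abs_le.mp (f.norm_coe_le_norm x)).1; linarith)
        rw [avg_smul (V S) (-‖f‖) (fun _ => 1), h1] at h2
        linarith
      · have h2 := avg_mono (V S) f (fun _ => ‖f‖ * 1) (fun x => by
          have := (abs_le.mp (f.norm_coe_le_norm x)).2; linarith)
        rw [avg_smul (V S) (‖f‖) (fun _ => 1), h1] at h2
        linarith
    have hcpt : IsCompact (Set.Icc (-‖f‖) ‖f‖) := isCompact_Icc
    obtain ⟨c, _, hc⟩ := hcpt.ultrafilter_le_nhds (F.map (fun S => avg (V S) f)) (by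
      rw [Filter.le_principal_iff]
      exact Filter.mem_map.mpr (Filter.Eventually.of_forall hb))
    exact ⟨c, hc⟩
  choose c hc using hlim
  have hadd : ∀ f g : C(G, ℝ), c (f + g) = c f + c g := by
    intro f g
    refine tendsto_nhds_unique (hc (f + g)) ?_
    have := (hc f).add (hc g)
    refine this.congr (fun S => ?_)
    exact (avg_add (V S) f g).symm
  have hsm : ∀ (r : ℝ) (f : C(G, ℝ)), c (r • f) = r * c f := by
    intro r f
    refine tendsto_nhds_unique (hc (r • f)) ?_
    have := (hc f).const_mul r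
    refine this.congr (fun S => ?_)
    exact (avg_smul (V S) r f).symm
  have hsm' : ∀ (r : ℝ) (f : C(G, ℝ)), c (r • f) = (RingHom.id ℝ) r • c f := by
    intro r f
    rw [hsm, RingHom.id_apply, smul_eq_mul]
  refine ⟨{ toFun := c, map_add' := hadd, map_smul' := hsm' }, ?_, ?_, ?_⟩
  · change c 1 = 1
    refine tendsto_nhds_unique (hc 1) ?_
    refine tendsto_const_nhds.congr (fun S => ?_)
    exact (avg_one (V S) (hVf S)).symm
  · intro f hf
    change 0 ≤ c f
    exact ge_of_tendsto' (hc f) (fun S => avg_nonneg (V S) f hf)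
  · intro k f hfc
    change c _ = c f
    obtain ⟨k', hk1, hk2⟩ := hinv k
    have h0 : Filter.Tendsto (fun S => avg (V S) (fun x => f (T k x)) - avg (V S) f) F (nhds 0) := by
      rw [Metric.tendsto_nhds]
      intro ε hε
      obtain ⟨S0, hS0⟩ := exists_small_comp f hfc (ε / 2) (by linarith)
      have hev : ∀ᶠ S in (F : Filter (Finset {u : Set G // IsClopen u})), S0 ≤ S :=
        hFle (Filter.eventually_ge_atTop S0)
      filter_upwards [hev] with S hS
      rw [Real.dist_eq, sub_zero]
      refine lt_of_le_of_lt (avg_inv (V S) (hVf S) (T k) (T k') hk1 hk2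
        (fun w hw => hVc S w hw k) (fun w hw => hVc S w hw k') f (ε / 2) ?_) (by linarith)
      intro x y hxy
      refine hS0 x y (fun w hw => hxy w.1 ?_)
      rw [hV]
      simp only [Set.mem_iUnion]
      exact ⟨w, hS hw, hUm w⟩
    have h1 := (hc (f.comp ⟨T k, hTc k⟩)).sub (hc f)
    have h2 : c (f.comp ⟨T k, hTc k⟩) - c f = 0 := tendsto_nhds_unique h1 h0
    linarith

end Comp

/-! ### good maps -/
section Good
variable {G : Type*} {mul ldiv rdiv : G → G → G} {e : G}

/-- homeomorphisms of `G` compatible with the core operation `c z⁻¹ c` -/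
structure Good [TopologicalSpace G] (mul ldiv : G → G → G) (e : G) (γ δ : G → G) : Prop where
  cont : Continuous γ
  cont' : Continuous δ
  right : ∀ x, γ (δ x) = x
  left : ∀ x, δ (γ x) = x
  core : ∀ c z, γ (mul c (mul (ldiv z e) c)) = mul (γ c) (mul (ldiv (γ z) e) (γ c))

variable [TopologicalSpace G]

theorem Good.symm {γ δ : G → G} (h : Good mul ldiv e γ δ) : Good mul ldiv e δ γ := by
  refine ⟨h.cont', h.cont, h.left, h.right, fun c z => ?_⟩
  have h1 := h.core (δ c) (δ z)
  rw [h.right, h.right] at h1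
  rw [← h1, h.left]

theorem Good.comp {γ δ γ' δ' : G → G} (h : Good mul ldiv e γ δ) (h' : Good mul ldiv e γ' δ') :
    Good mul ldiv e (fun x => γ (γ' x)) (fun x => δ' (δ x)) := by
  refine ⟨h.cont.comp h'.cont, h'.cont'.comp h.cont', fun x => ?_, fun x => ?_, fun c z => ?_⟩
  · rw [h'.right, h.right]
  · rw [h.left, h'.left]
  · rw [h'.core, h.core]

theorem good_L (h : IsMoufang mul ldiv rdiv e) (hm : Continuous (fun p : G × G => mul p.1 p.2)) (a : G) :
    Good mul ldiv e (fun x => mul a x) (fun x => mul (ldiv a e) x) := by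
  refine ⟨hm.comp (continuous_const.prodMk continuous_id), hm.comp (continuous_const.prodMk continuous_id),
    fun x => h.lip' a x, fun x => h.lip a x, fun c z => ?_⟩
  rw [h.inv_mul_rev, h.prod_m, h.rip', h.flex]

theorem good_R (h : IsMoufang mul ldiv rdiv e) (hm : Continuous (fun p : G × G => mul p.1 p.2)) (a : G) :
    Good mul ldiv e (fun x => mul x a) (fun x => mul x (ldiv a e)) := by
  refine ⟨hm.comp (continuous_id.prodMk continuous_const), hm.comp (continuous_id.prodMk continuous_const),
    fun x => h.rip' x a, fun x => h.rip x a, fun c z => ?_⟩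
  rw [h.inv_mul_rev, ← h.flex (mul c a), h.prod_m', h.lip']

theorem Good.maps {γ δ : G → G} (h : Good mul ldiv e γ δ) (he : γ e ∈ connectedComponent e) :
    (∀ x ∈ connectedComponent e, γ x ∈ connectedComponent e) ∧
    (∀ x ∈ connectedComponent e, δ x ∈ connectedComponent e) := by
  have h1 : connectedComponent (γ e) = connectedComponent e := (connectedComponent_eq he).symm
  constructor
  · intro x hx
    have := h.cont.image_connectedComponent_subset e ⟨x, hx, rfl⟩
    rwa [h1] at this
  · intro x hx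
    rw [← h1] at hx
    have := h.cont'.image_connectedComponent_subset (γ e) ⟨x, hx, rfl⟩
    rwa [h.left] at this

end Good

end Pool.Agent.Helper974.Moufang
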