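import Mathlib
import Pool.Agent.Helper974.Moufang.Reduction

set_option autoImplicit false

namespace Pool.Agent.Helper974.Moufang

section Main
variable {G : Type*} [TopologicalSpace G]

/-- a linear functional on `C(K)` is invariant under all maps `y ↦ k y k` with `k ∈ K` -/
def PInv (mul : G → G → G) (K : Set G) (J : C(K, ℝ) →ₗ[ℝ] ℝ) : Prop :=
  ∀ k : K, ∀ f g : C(K, ℝ), (∀ y z : K, (z : G) = mul k (mul y k) → g y = f z) → J g = J f

/-- a state: normalised positive linear functional -/
def IsState {X : Type*} [TopologicalSpace X] (J : C(X, ℝ) →ₗ[ℝ] ℝ) : Prop :=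
  J 1 = 1 ∧ ∀ f : C(X, ℝ), (∀ x, 0 ≤ f x) → 0 ≤ J f

theorem state_bound {X : Type*} [TopologicalSpace X] [CompactSpace X] (J : C(X, ℝ) →ₗ[ℝ] ℝ)
    (hJ : IsState J) (f : C(X, ℝ)) : |J f| ≤ ‖f‖ := by
  have h1 := hJ.2 (‖f‖ • (1 : C(X, ℝ)) - f) (fun x => by
    have := (abs_le.mp (f.norm_coe_le_norm x)).2
    change 0 ≤ ‖f‖ * 1 - f x
    linarith)
  have h2 := hJ.2 (‖f‖ • (1 : C(X, ℝ)) + f) (fun x => by
    have := (abs_le.mp (f.norm_coe_le_norm x)).1
    change 0 ≤ ‖f‖ * 1 + f x
    linarith)
  rw [map_sub, map_smul, hJ.1, smul_eq_mul, mul_one] at h1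
  rw [map_add, map_smul, hJ.1, smul_eq_mul, mul_one] at h2
  rw [abs_le]
  constructor <;> linarith

variable {mul ldiv rdiv : G → G → G} {e : G}

theorem comp_mul (h : IsMoufang mul ldiv rdiv e) (hm : Continuous (fun p : G × G => mul p.1 p.2))
    {a b : G} (ha : a ∈ connectedComponent e) (hb : b ∈ connectedComponent e) :
    mul a b ∈ connectedComponent e := by
  have hg := good_L h hm a
  refine (hg.maps ?_).1 b hb
  change mul a e ∈ connectedComponent e
  rw [h.mul_one]; exact ha

theorem comp_inv (h : IsMoufang mul ldiv rdiv e) (hm : Continuous (fun p : G × G => mul p.1 p.2))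
    {a : G} (ha : a ∈ connectedComponent e) : ldiv a e ∈ connectedComponent e := by
  have hg := good_L h hm a
  have := (hg.maps (by
    change mul a e ∈ connectedComponent e
    rw [h.mul_one]; exact ha)).2 e mem_connectedComponent
  change mul (ldiv a e) e ∈ connectedComponent e at this
  rwa [h.mul_one] at this

theorem key (h : IsMoufang mul ldiv rdiv e) (hm : Continuous (fun p : G × G => mul p.1 p.2))
    (J : C(connectedComponent e, ℝ) →ₗ[ℝ] ℝ) (hJ : IsState J) (hJP : PInv mul (connectedComponent e) J)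
    (hu : ∀ J' : C(connectedComponent e, ℝ) →ₗ[ℝ] ℝ, IsState J' →
      PInv mul (connectedComponent e) J' → J' = J)
    {γ δ : G → G} (hg : Good mul ldiv e γ δ) (he : γ e ∈ connectedComponent e)
    (f g : C(connectedComponent e, ℝ))
    (hfg : ∀ y z : connectedComponent e, (z : G) = γ y → g y = f z) : J g = J f := by
  obtain ⟨m1, m2⟩ := hg.maps he
  let γK : C(connectedComponent e, connectedComponent e) :=
    ⟨fun y => ⟨γ y, m1 y y.2⟩, (hg.cont.comp continuous_subtype_val).subtype_mk _⟩
  let J' : C(connectedComponent e, ℝ) →ₗ[ℝ] ℝ :=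
    { toFun := fun f => J (f.comp γK)
      map_add' := fun f1 f2 => by rw [← map_add]; rfl
      map_smul' := fun c f1 => by rw [← map_smul]; rfl }
  have hJ'1 : IsState J' := by
    refine ⟨?_, fun f1 hf1 => ?_⟩
    · change J ((1 : C(connectedComponent e, ℝ)).comp γK) = 1
      have : (1 : C(connectedComponent e, ℝ)).comp γK = 1 := rfl
      rw [this, hJ.1]
    · exact hJ.2 _ (fun x => hf1 _)
  let Pm : connectedComponent e → C(connectedComponent e, connectedComponent e) := fun c =>
    ⟨fun y => ⟨mul c (mul y c), comp_mul h hm c.2 (comp_mul h hm y.2 c.2)⟩, by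
      refine Continuous.subtype_mk ?_ _
      have hc1 : Continuous (fun y : connectedComponent e => mul (y : G) (c : G)) :=
        hm.comp (continuous_subtype_val.prodMk continuous_const)
      exact hm.comp (continuous_const.prodMk hc1)⟩
  have hJ'2 : PInv mul (connectedComponent e) J' := by
    intro k f1 g1 hk
    change J (g1.comp γK) = J (f1.comp γK)
    let a : connectedComponent e := ⟨δ k, m2 k k.2⟩
    let b : G := δ e
    have hb : b ∈ connectedComponent e := m2 e mem_connectedComponent
    let b' : connectedComponent e := ⟨ldiv b e, comp_inv h hm hb⟩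
    have e1 : J ((f1.comp γK).comp (Pm a)) = J (f1.comp γK) := by
      refine hJP a _ _ (fun y z hz => ?_)
      have : z = Pm a y := Subtype.ext hz
      rw [this]; rfl
    have e2 : J (((f1.comp γK).comp (Pm a)).comp (Pm b')) = J ((f1.comp γK).comp (Pm a)) := by
      refine hJP b' _ _ (fun y z hz => ?_)
      have : z = Pm b' y := Subtype.ext hz
      rw [this]; rfl
    rw [← e1, ← e2]
    congr 1
    ext y
    have hcalc : γ (mul (δ k) (mul (mul (ldiv b e) (mul y (ldiv b e))) (δ k))) = mul k (mul (γ y) k) := by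
      have h1 : mul (ldiv b e) (mul (y : G) (ldiv b e)) = ldiv (mul b (mul (ldiv (y : G) e) b)) e := by
        rw [h.inv_mul_rev, h.inv_mul_rev, h.inv_inv, h.flex]
      rw [h1, hg.core, hg.right, hg.core]
      have h2 : γ b = e := hg.right e
      rw [h2, h.one_mul, h.mul_one, h.inv_inv]
    refine hk (γK y) (γK (Pm a (Pm b' y))) ?_
    exact hcalc
  have hJJ := hu J' hJ'1 hJ'2
  have h3 : g = f.comp γK := by
    ext y
    exact hfg y (γK y) rfl
  rw [h3]
  exact congrArg (fun L : C(connectedComponent e, ℝ) →ₗ[ℝ] ℝ => L f) hJJ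

/-- criterion: a unique state on `C(G₀)` invariant under the maps `y ↦ k y k` gives an invariant
integral on `G` -/
theorem criterion [CompactSpace G] [T2Space G] (h : IsMoufang mul ldiv rdiv e)
    (hm : Continuous (fun p : G × G => mul p.1 p.2)) (hl : Continuous (fun p : G × G => ldiv p.1 p.2))
    (J : C(connectedComponent e, ℝ) →ₗ[ℝ] ℝ) (hJ : IsState J) (hJP : PInv mul (connectedComponent e) J)
    (hu : ∀ J' : C(connectedComponent e, ℝ) →ₗ[ℝ] ℝ, IsState J' →
      PInv mul (connectedComponent e) J' → J' = J) :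
    ∃ I : C(G, ℝ) →ₗ[ℝ] ℝ, IsState I ∧
      (∀ (a : G) (f g : C(G, ℝ)), (∀ x, g x = f (mul a x)) → I g = I f) ∧
      (∀ (a : G) (f g : C(G, ℝ)), (∀ x, g x = f (mul x a)) → I g = I f) := by
  haveI : Nonempty G := ⟨e⟩
  haveI : CompactSpace (connectedComponent e) :=
    isCompact_iff_compactSpace.mp isClosed_connectedComponent.isCompact
  have hK := fun {γ δ : G → G} (hg : Good mul ldiv e γ δ) => key h hm J hJ hJP hu hg
  let Jc : C(connectedComponent e, ℝ) →L[ℝ] ℝ := J.mkContinuous 1 (fun f => by
    rw [Real.norm_eq_abs, one_mul]; exact state_bound J hJ f)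
  let M : C(G, ℝ) → C(G × connectedComponent e, ℝ) := fun f =>
    ⟨fun p => f (mul p.1 p.2), f.continuous.comp
      (hm.comp (continuous_fst.prodMk (continuous_subtype_val.comp continuous_snd)))⟩
  let A : C(G, ℝ) →ₗ[ℝ] C(G, ℝ) :=
    { toFun := fun f => ⟨fun x => Jc ((M f).curry x), Jc.continuous.comp (M f).curry.continuous⟩
      map_add' := fun f1 f2 => by
        ext x
        change Jc ((M (f1 + f2)).curry x) = Jc ((M f1).curry x) + Jc ((M f2).curry x)
        rw [← map_add]; rfl
      map_smul' := fun c f1 => by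
        ext x
        change Jc ((M (c • f1)).curry x) = c * Jc ((M f1).curry x)
        rw [← smul_eq_mul, ← map_smul]; rfl }
  have hA : ∀ f x, A f x = J ((M f).curry x) := fun f x => rfl
  have hAc : ∀ f : C(G, ℝ), ∀ x x' : G, connectedComponent x = connectedComponent x' → A f x = A f x' := by
    intro f x x' hxx
    rw [hA, hA]
    symm
    have hg := (good_L h hm (ldiv x e)).comp (good_L h hm x')
    refine hK hg ?_ _ _ ?_
    · change mul (ldiv x e) (mul x' e) ∈ connectedComponent e
      rw [h.mul_one]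
      have h1 := (good_L h hm (ldiv x e)).cont.image_connectedComponent_subset x
        ⟨x', by rw [hxx]; exact mem_connectedComponent, rfl⟩
      change mul (ldiv x e) x' ∈ connectedComponent (mul (ldiv x e) x) at h1
      rwa [h.inv_mul] at h1
    · intro y z hz
      change f (mul x' y) = f (mul x z)
      rw [hz, h.lip']
  have hT : ∀ (T S : G → G), Good mul ldiv e T S → ∀ f g : C(G, ℝ), (∀ x, g x = f (T x)) →
      ∀ x, A g x = A f (T x) := by
    intro T S hTS f g hfg x
    rw [hA, hA]
    have hg := (good_L h hm (ldiv (T x) e)).comp (hTS.comp (good_L h hm x))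
    refine hK hg ?_ _ _ ?_
    · change mul (ldiv (T x) e) (T (mul x e)) ∈ connectedComponent e
      rw [h.mul_one, h.inv_mul]
      exact mem_connectedComponent
    · intro y z hz
      change g (mul x y) = f (mul (T x) z)
      rw [hfg, hz, h.lip']
  let T : Bool × G → G → G := fun k x => if k.1 then mul k.2 x else mul x k.2
  have hT1 : ∀ a, T (true, a) = fun x => mul a x := fun a => by funext x; simp [T]
  have hT2 : ∀ a, T (false, a) = fun x => mul x a := fun a => by funext x; simp [T]
  have hTc : ∀ k, Continuous (T k) := by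
    rintro ⟨b, a⟩
    cases b
    · rw [hT2]; exact hm.comp (continuous_id.prodMk continuous_const)
    · rw [hT1]; exact hm.comp (continuous_const.prodMk continuous_id)
  have hinv : ∀ k, ∃ k', (∀ x, T k (T k' x) = x) ∧ ∀ x, T k' (T k x) = x := by
    rintro ⟨b, a⟩
    refine ⟨(b, ldiv a e), ?_⟩
    cases b
    · rw [hT2, hT2]; exact ⟨fun x => h.rip' x a, fun x => h.rip x a⟩
    · rw [hT1, hT1]; exact ⟨fun x => h.lip' a x, fun x => h.lip a x⟩
  obtain ⟨I0, hI1, hI2, hI3⟩ := exists_integral_comp T hTc hinv (fun u hu => by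
    obtain ⟨U, hU1, hU2, hU3, hU4, hU5⟩ := clopen_family h hm hl u hu
    refine ⟨U, hU1, hU2, fun w hw k => ?_⟩
    obtain ⟨b, a⟩ := k
    cases b
    · rw [hT2]; exact hU5 w hw a
    · rw [hT1]; exact hU4 w hw a)
  refine ⟨I0.comp A, ⟨?_, ?_⟩, ?_, ?_⟩
  · have : A 1 = 1 := by
      ext x
      rw [hA]
      change J ((M 1).curry x) = 1
      have : (M 1).curry x = 1 := rfl
      rw [this, hJ.1]
    rw [LinearMap.comp_apply, this, hI1]
  · intro f hf
    rw [LinearMap.comp_apply]
    refine hI2 _ (fun x => ?_)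
    rw [hA]
    exact hJ.2 _ (fun y => hf _)
  · intro a f g hfg
    rw [LinearMap.comp_apply, LinearMap.comp_apply, ← hI3 (true, a) (A f) (hAc f)]
    congr 1
    ext x
    rw [hT _ _ (good_L h hm a) f g hfg x]
    simp [T]
  · intro a f g hfg
    rw [LinearMap.comp_apply, LinearMap.comp_apply, ← hI3 (false, a) (A f) (hAc f)]
    congr 1
    ext x
    rw [hT _ _ (good_R h hm a) f g hfg x]
    simp [T]

end Main

end Pool.Agent.Helper974.Moufang
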