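import Mathlib
import Pool.Agent.Helper974.Moufang.Criterion

set_option autoImplicit false

namespace Pool.Agent.Helper974.Moufang

open MeasureTheory

/-- averaging over a compact group of maps -/
theorem exists_avg {Γ : Type*} [Group Γ] [TopologicalSpace Γ] [IsTopologicalGroup Γ] [CompactSpace Γ]
    [T2Space Γ] {K : Type*} [TopologicalSpace K] [CompactSpace K]
    (act : Γ → K → K) (hact : Continuous (fun p : Γ × K => act p.1 p.2))
    (hmul : ∀ g g' y, act (g * g') y = act g (act g' y)) (f : C(K, ℝ)) :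
    ∃ fb : C(K, ℝ), (∀ g y, fb (act g y) = fb y) ∧
      ∀ J : C(K, ℝ) →ₗ[ℝ] ℝ, IsState J →
        (∀ g : Γ, ∀ f1 f2 : C(K, ℝ), (∀ y, f2 y = f1 (act g y)) → J f2 = J f1) → J fb = J f := by
  letI : MeasurableSpace Γ := borel Γ
  haveI : BorelSpace Γ := ⟨rfl⟩
  let γ : Measure Γ := Measure.haarMeasure ⊤
  haveI hγ : IsProbabilityMeasure γ := by
    refine ⟨?_⟩
    have := Measure.haarMeasure_self (G := Γ) (K₀ := ⊤)
    simpa using this
  let M : C(Γ × K, ℝ) := ⟨fun p => f (act p.1⁻¹ p.2), f.continuous.comp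
    (hact.comp ((continuous_inv.comp continuous_fst).prodMk continuous_snd))⟩
  let F : Γ → C(K, ℝ) := fun g => M.curry g
  have hFc : Continuous F := M.curry.continuous
  have hFi : Integrable F γ := hFc.integrable_of_hasCompactSupport (HasCompactSupport.of_compactSpace F)
  refine ⟨∫ g, F g ∂γ, fun g y => ?_, fun J hJ hJi => ?_⟩
  · rw [ContinuousMap.integral_apply hFi, ContinuousMap.integral_apply hFi]
    change ∫ g', f (act g'⁻¹ (act g y)) ∂γ = ∫ g', f (act g'⁻¹ y) ∂γ
    have h1 : ∀ g', f (act g'⁻¹ (act g y)) = (fun g' => f (act g'⁻¹ y)) (g⁻¹ * g') := by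
      intro g'
      change _ = f (act (g⁻¹ * g')⁻¹ y)
      rw [mul_inv_rev, inv_inv, hmul]
    rw [integral_congr_ae (Filter.Eventually.of_forall h1)]
    exact integral_mul_left_eq_self (fun g' => f (act g'⁻¹ y)) g⁻¹
  · let Jc : C(K, ℝ) →L[ℝ] ℝ := J.mkContinuous 1 (fun f => by
      rw [Real.norm_eq_abs, one_mul]; exact state_bound J hJ f)
    have h1 : ∫ g, Jc (F g) ∂γ = Jc (∫ g, F g ∂γ) := Jc.integral_comp_comm hFi
    have h2 : ∀ g, Jc (F g) = J f := fun g => hJi g⁻¹ f (F g) (fun y => rfl)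
    change Jc (∫ g, F g ∂γ) = J f
    rw [← h1, integral_congr_ae (Filter.Eventually.of_forall h2), integral_const]
    simp


/-- existence of a two sided invariant state on a compact group, in the form we need -/
theorem exists_pinv {K : Type*} [Group K] [TopologicalSpace K] [IsTopologicalGroup K]
    [CompactSpace K] [T2Space K] :
    ∃ J0 : C(K, ℝ) →ₗ[ℝ] ℝ, IsState J0 ∧
      ∀ x : K, ∀ f g : C(K, ℝ), (∀ y, g y = f (x * (y * x))) → J0 g = J0 f := by
  letI : MeasurableSpace (K × K) := borel (K × K)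
  haveI : BorelSpace (K × K) := ⟨rfl⟩
  let γ : Measure (K × K) := Measure.haarMeasure ⊤
  haveI hγ : IsProbabilityMeasure γ := by
    refine ⟨?_⟩
    have := Measure.haarMeasure_self (G := K × K) (K₀ := ⊤)
    simpa using this
  have hc : ∀ f : C(K, ℝ), Continuous (fun g : K × K => f (g.1 * g.2⁻¹)) := fun f =>
    f.continuous.comp (continuous_fst.mul continuous_snd.inv)
  have hi : ∀ f : C(K, ℝ), Integrable (fun g : K × K => f (g.1 * g.2⁻¹)) γ := fun f =>
    (hc f).integrable_of_hasCompactSupport (HasCompactSupport.of_compactSpace _)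
  refine ⟨{ toFun := fun f => ∫ g, f (g.1 * g.2⁻¹) ∂γ
            map_add' := fun f1 f2 => integral_add (hi f1) (hi f2)
            map_smul' := fun c f1 => integral_const_mul c _ }, ⟨?_, ?_⟩, ?_⟩
  · change ∫ g : K × K, (1 : ℝ) ∂γ = 1
    simp
  · intro f hf
    exact integral_nonneg (fun g => hf _)
  · intro x f g hfg
    change ∫ p : K × K, g (p.1 * p.2⁻¹) ∂γ = ∫ p : K × K, f (p.1 * p.2⁻¹) ∂γ
    have h1 : ∀ p : K × K, g (p.1 * p.2⁻¹) = (fun p : K × K => f (p.1 * p.2⁻¹)) ((x, x⁻¹) * p) := by
      intro p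
      rw [hfg]
      change _ = f ((x * p.1) * (x⁻¹ * p.2)⁻¹)
      congr 1
      group
    rw [integral_congr_ae (Filter.Eventually.of_forall h1)]
    exact integral_mul_left_eq_self (fun p : K × K => f (p.1 * p.2⁻¹)) (x, x⁻¹)

theorem unique_pinv {K : Type*} [Group K] [TopologicalSpace K] [IsTopologicalGroup K]
    [CompactSpace K] [T2Space K]
    (hsq : ∀ S : Subgroup K, IsClosed (S : Set K) → (∀ x : K, x * x ∈ S) → S = ⊤)
    (J J' : C(K, ℝ) →ₗ[ℝ] ℝ) (hJ : IsState J) (hJ' : IsState J')
    (hP : ∀ x : K, ∀ f g : C(K, ℝ), (∀ y, g y = f (x * (y * x))) → J g = J f)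
    (hP' : ∀ x : K, ∀ f g : C(K, ℝ), (∀ y, g y = f (x * (y * x))) → J' g = J' f) : J = J' := by
  let Γ : Subgroup (K × K) := (Subgroup.closure {p : K × K | ∃ x, p = (x, x⁻¹)}).topologicalClosure
  have hgen : ∀ x : K, ((x, x⁻¹) : K × K) ∈ Γ := fun x =>
    Subgroup.le_topologicalClosure _ (Subgroup.subset_closure ⟨x, rfl⟩)
  have hΓc : IsClosed (Γ : Set (K × K)) := Subgroup.isClosed_topologicalClosure _
  haveI : CompactSpace Γ := isCompact_iff_compactSpace.mp hΓc.isCompact
  let act : Γ → K → K := fun g y => g.1.1 * y * g.1.2⁻¹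
  have hact : Continuous (fun p : Γ × K => act p.1 p.2) := by
    have h1 : Continuous (fun p : Γ × K => p.1.1.1) :=
      continuous_fst.comp (continuous_subtype_val.comp continuous_fst)
    have h2 : Continuous (fun p : Γ × K => p.1.1.2) :=
      continuous_snd.comp (continuous_subtype_val.comp continuous_fst)
    exact (h1.mul continuous_snd).mul h2.inv
  have hmul : ∀ g g' y, act (g * g') y = act g (act g' y) := by
    intro g g' y
    change (g.1.1 * g'.1.1) * y * (g.1.2 * g'.1.2)⁻¹ = g.1.1 * (g'.1.1 * y * g'.1.2⁻¹) * g.1.2⁻¹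
    group
  -- a P-invariant state is invariant under Γ
  have hinv : ∀ L : C(K, ℝ) →ₗ[ℝ] ℝ, IsState L →
      (∀ x : K, ∀ f g : C(K, ℝ), (∀ y, g y = f (x * (y * x))) → L g = L f) →
      ∀ g : Γ, ∀ f1 f2 : C(K, ℝ), (∀ y, f2 y = f1 (act g y)) → L f2 = L f1 := by
    intro L hL hLP g f1 f2 h12
    let Lc : C(K, ℝ) →L[ℝ] ℝ := L.mkContinuous 1 (fun f => by
      rw [Real.norm_eq_abs, one_mul]; exact state_bound L hL f)
    let M : C(K, ℝ) → C((K × K) × K, ℝ) := fun f => ⟨fun p => f (p.1.1 * p.2 * p.1.2⁻¹),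
      f.continuous.comp (((continuous_fst.comp continuous_fst).mul continuous_snd).mul
        (continuous_snd.comp continuous_fst).inv)⟩
    let S : Subgroup (K × K) :=
      { carrier := {p | ∀ f, L ((M f).curry p) = L f}
        mul_mem' := by
          intro p q hp hq f
          have h1 : (M f).curry (p * q) = (M ((M f).curry p)).curry q := by
            ext y
            change f ((p.1 * q.1) * y * (p.2 * q.2)⁻¹) = f (p.1 * (q.1 * y * q.2⁻¹) * p.2⁻¹)
            congr 1
            group
          rw [h1, hq, hp]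
        one_mem' := by
          intro f
          have h1 : (M f).curry 1 = f := by
            ext y
            change f (1 * y * 1⁻¹) = f y
            congr 1
            group
          rw [h1]
        inv_mem' := by
          intro p hp f
          have h1 : (M ((M f).curry p⁻¹)).curry p = f := by
            ext y
            change f (p.1⁻¹ * (p.1 * y * p.2⁻¹) * (p.2⁻¹)⁻¹) = f y
            congr 1
            group
          rw [← hp ((M f).curry p⁻¹), h1] }
    have hSc : IsClosed (S : Set (K × K)) := by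
      have : (S : Set (K × K)) = ⋂ f : C(K, ℝ), {p | Lc ((M f).curry p) = L f} := by
        ext p
        rw [Set.mem_iInter]
        rfl
      rw [this]
      exact isClosed_iInter (fun f => isClosed_eq (Lc.continuous.comp (M f).curry.continuous)
        continuous_const)
    have hle : Γ ≤ S := by
      refine Subgroup.topologicalClosure_minimal _ ?_ hSc
      rw [Subgroup.closure_le]
      rintro p ⟨x, rfl⟩ f
      refine hLP x f _ (fun y => ?_)
      change f (x * y * (x⁻¹)⁻¹) = f (x * (y * x))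
      congr 1
      group
    have h3 := hle g.2 f1
    have h4 : f2 = (M f1).curry g.1 := by
      ext y
      exact h12 y
    rw [h4, h3]
  ext f
  obtain ⟨fb, hfb1, hfb2⟩ := exists_avg act hact hmul f
  have hcomm : ∀ x y w : K, fb (x * y * x⁻¹ * y⁻¹ * w) = fb w := by
    intro x y w
    have hmem : ((x * y * x⁻¹ * y⁻¹, 1) : K × K) ∈ Γ := by
      have := Γ.mul_mem (Γ.mul_mem (hgen x) (hgen y)) (hgen (x⁻¹ * y⁻¹))
      have h2 : ((x, x⁻¹) : K × K) * (y, y⁻¹) * (x⁻¹ * y⁻¹, (x⁻¹ * y⁻¹)⁻¹) = (x * y * x⁻¹ * y⁻¹, 1) := by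
        ext
        · change x * y * (x⁻¹ * y⁻¹) = x * y * x⁻¹ * y⁻¹
          group
        · change x⁻¹ * y⁻¹ * (x⁻¹ * y⁻¹)⁻¹ = 1
          group
      rwa [h2] at this
    have := hfb1 ⟨_, hmem⟩ w
    change fb (x * y * x⁻¹ * y⁻¹ * w * (1 : K)⁻¹) = fb w at this
    rwa [inv_one, mul_one] at this
  have hP1 : ∀ x y : K, fb (x * y * x) = fb y := by
    intro x y
    have := hfb1 ⟨_, hgen x⟩ y
    change fb (x * y * (x⁻¹)⁻¹) = fb y at this
    rwa [inv_inv] at this
  have hsq1 : ∀ x y : K, fb (y * (x * x)) = fb y := by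
    intro x y
    have h1 := hcomm x y (y * (x * x))
    have h2 : x * y * x⁻¹ * y⁻¹ * (y * (x * x)) = x * y * x := by group
    rw [h2, hP1] at h1
    exact h1.symm
  let T : Subgroup K :=
    { carrier := {z | ∀ y, fb (y * z) = fb y}
      mul_mem' := by
        intro a b ha hb y
        rw [← mul_assoc, hb, ha]
      one_mem' := by
        intro y
        rw [mul_one]
      inv_mem' := by
        intro a ha y
        have := ha (y * a⁻¹)
        rw [inv_mul_cancel_right] at this
        exact this.symm }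
  have hTc : IsClosed (T : Set K) := by
    have : (T : Set K) = ⋂ y : K, {z | fb (y * z) = fb y} := by
      ext z
      rw [Set.mem_iInter]
      rfl
    rw [this]
    exact isClosed_iInter (fun y => isClosed_eq (fb.continuous.comp (continuous_const.mul continuous_id))
      continuous_const)
  have hT : T = ⊤ := hsq T hTc (fun x y => hsq1 x y)
  have hconst : fb = (fb 1) • (1 : C(K, ℝ)) := by
    ext z
    have hz : z ∈ T := by rw [hT]; exact Subgroup.mem_top z
    have := hz 1
    rw [one_mul] at this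
    rw [this]
    change fb 1 = fb 1 * 1
    rw [mul_one]
  have e1 := hfb2 J hJ (hinv J hJ hP)
  have e2 := hfb2 J' hJ' (hinv J' hJ' hP')
  rw [← e1, ← e2, hconst, map_smul, map_smul, hJ.1, hJ'.1]

end Pool.Agent.Helper974.Moufang
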