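import Mathlib
import Pool.Agent.Helper974.Moufang.Criterion
import Pool.Agent.Helper974.Moufang.Uniq
import Pool.Agent.Helper974.Moufang.Bool

set_option autoImplicit false

namespace Pool.Agent.Helper974.Moufang

/-- in a compact connected group a closed subgroup containing all squares is everything -/
theorem squares_top {K : Type*} [Group K] [TopologicalSpace K] [IsTopologicalGroup K]
    [CompactSpace K] [T2Space K] [ConnectedSpace K] (S : Subgroup K) (hS : IsClosed (S : Set K))
    (hsq : ∀ x : K, x * x ∈ S) : S = ⊤ := by
  haveI hN : S.Normal := by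
    refine ⟨fun s hs x => ?_⟩
    have h1 : x * s * x⁻¹ = (x * s) * (x * s) * s⁻¹ * (x * x)⁻¹ := by group
    rw [h1]
    exact S.mul_mem (S.mul_mem (hsq _) (S.inv_mem hs)) (S.inv_mem (hsq _))
  haveI : IsClosed (S : Set K) := hS
  haveI : ConnectedSpace (K ⧸ S) := Quotient.instConnectedSpace
  have hB : ∀ b : K ⧸ S, b * b = 1 := by
    intro b
    induction b using QuotientGroup.induction_on with
    | H x =>
      rw [← QuotientGroup.mk_mul]
      exact (QuotientGroup.eq_one_iff _).mpr (hsq x)
  rw [eq_top_iff]
  intro x _
  exact (QuotientGroup.eq_one_iff _).mp (bool_trivial hB (x : K ⧸ S))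

section
variable {G : Type*} [TopologicalSpace G] [CompactSpace G] [T2Space G]
  {mul ldiv rdiv : G → G → G} {e : G}

theorem assoc_case (h : IsMoufang mul ldiv rdiv e)
    (hm : Continuous (fun p : G × G => mul p.1 p.2)) (hl : Continuous (fun p : G × G => ldiv p.1 p.2))
    (hass : ∀ x ∈ connectedComponent e, ∀ y ∈ connectedComponent e, ∀ z ∈ connectedComponent e,
      mul (mul x y) z = mul x (mul y z)) :
    ∃ I : C(G, ℝ) →ₗ[ℝ] ℝ, IsState I ∧
      (∀ (a : G) (f g : C(G, ℝ)), (∀ x, g x = f (mul a x)) → I g = I f) ∧
      (∀ (a : G) (f g : C(G, ℝ)), (∀ x, g x = f (mul x a)) → I g = I f) := by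
  haveI : CompactSpace (connectedComponent e) :=
    isCompact_iff_compactSpace.mp isClosed_connectedComponent.isCompact
  haveI : ConnectedSpace (connectedComponent e) :=
    isConnected_iff_connectedSpace.mp isConnected_connectedComponent
  letI : Mul (connectedComponent e) := ⟨fun x y => ⟨mul x y, comp_mul h hm x.2 y.2⟩⟩
  letI : One (connectedComponent e) := ⟨⟨e, mem_connectedComponent⟩⟩
  letI : Inv (connectedComponent e) := ⟨fun x => ⟨ldiv x e, comp_inv h hm x.2⟩⟩
  letI : Group (connectedComponent e) := Group.ofLeftAxioms
    (fun x y z => Subtype.ext (hass x x.2 y y.2 z z.2))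
    (fun x => Subtype.ext (h.one_mul x)) (fun x => Subtype.ext (h.inv_mul x))
  haveI : IsTopologicalGroup (connectedComponent e) :=
    { continuous_mul := by
        refine Continuous.subtype_mk (f := fun p : (connectedComponent e) × (connectedComponent e) =>
          mul (p.1 : G) (p.2 : G)) ?_ _
        exact hm.comp ((continuous_subtype_val.comp continuous_fst).prodMk
          (continuous_subtype_val.comp continuous_snd))
      continuous_inv := by
        refine Continuous.subtype_mk (f := fun p : (connectedComponent e) => ldiv (p : G) e) ?_ _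
        exact hl.comp (continuous_subtype_val.prodMk continuous_const) }
  obtain ⟨J, hJ, hJP⟩ := exists_pinv (K := connectedComponent e)
  refine criterion h hm hl J hJ ?_ ?_
  · intro k f g hfg
    exact hJP k f g (fun y => hfg y (k * (y * k)) rfl)
  · intro J' hJ' hJ'P
    refine unique_pinv (fun S hS hsq => squares_top S hS hsq) J' J hJ' hJ ?_ hJP
    intro x f g hfg
    refine hJ'P x f g (fun y z hz => ?_)
    rw [hfg]
    congr 1
    exact Subtype.ext hz.symm

end

end Pool.Agent.Helper974.Moufang
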