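import Mathlib
import Pool.Agent.Helper974.Moufang.Criterion

set_option autoImplicit false

namespace Pool.Agent.Helper974.Moufang



/-- TARGET: Fubini for states -/
theorem state_fubini {X Y : Type*} [TopologicalSpace X] [CompactSpace X] [T2Space X]
    [TopologicalSpace Y] [CompactSpace Y] [T2Space Y]
    (J1 : C(X, ℝ) →ₗ[ℝ] ℝ) (h1 : IsState J1) (J2 : C(Y, ℝ) →ₗ[ℝ] ℝ) (h2 : IsState J2)
    (F : X → Y → ℝ) (_hF : Continuous (fun p : X × Y => F p.1 p.2))
    (A : C(X, ℝ)) (hA : ∀ x, ∀ g : C(Y, ℝ), (∀ y, g y = F x y) → A x = J2 g)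
    (B : C(Y, ℝ)) (hB : ∀ y, ∀ g : C(X, ℝ), (∀ x, g x = F x y) → B y = J1 g) : J1 A = J2 B := by
  classical
  let G : C(X × Y, ℝ) := ⟨fun p => F p.1 p.2, _hF⟩
  let Φ : C(X, C(Y, ℝ)) := G.curry
  have hΦ : ∀ x y, Φ x y = F x y := fun x y => rfl
  have hAx : ∀ x, A x = J2 (Φ x) := fun x => hA x (Φ x) (fun y => rfl)
  let Ψ : Y → C(X, ℝ) := fun y => ⟨fun x => F x y, _hF.comp (continuous_id.prodMk continuous_const)⟩
  have hBy : ∀ y, B y = J1 (Ψ y) := fun y => hB y (Ψ y) (fun x => rfl)
  -- the estimate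
  have key : ∀ ε : ℝ, 0 < ε → |J1 A - J2 B| ≤ 2 * ε := by
    intro ε hε
    let U : X → Set X := fun x0 => Φ ⁻¹' (Metric.ball (Φ x0) ε)
    have hUo : ∀ x0, IsOpen (U x0) := fun x0 => Metric.isOpen_ball.preimage Φ.continuous
    have hUm : ∀ x0, x0 ∈ U x0 := fun x0 => Metric.mem_ball_self hε
    obtain ⟨t, ht⟩ := CompactSpace.elim_nhds_subcover U (fun x => (hUo x).mem_nhds (hUm x))
    obtain ⟨f, hf⟩ := PartitionOfUnity.exists_isSubordinate (s := (Set.univ : Set X)) isClosed_univ
      (fun i : t => U i) (fun i => hUo i) (by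
        intro x _
        have hx : x ∈ ⋃ x ∈ t, U x := by rw [ht]; trivial
        simp only [Set.mem_iUnion] at hx ⊢
        obtain ⟨i, hi, hx⟩ := hx
        exact ⟨⟨i, hi⟩, hx⟩)
    have hsum : ∀ x, ∑ i : t, f i x = 1 := by
      intro x
      have h := f.sum_eq_one (Set.mem_univ x)
      rwa [finsum_eq_sum_of_fintype] at h
    have hclose : ∀ (i : t) (x : X), f i x * ‖Φ x - Φ i‖ ≤ f i x * ε := by
      intro i x
      by_cases h : f i x = 0
      · rw [h, zero_mul, zero_mul]
      · have hx : x ∈ U i := hf i (subset_tsupport _ h)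
        have hx' : ‖Φ x - Φ i‖ < ε := by
          have := hx
          rw [← dist_eq_norm]
          exact this
        exact mul_le_mul_of_nonneg_left hx'.le (f.nonneg i x)
    let A' : C(X, ℝ) := ∑ i : t, (J2 (Φ i)) • (f i)
    let B' : C(Y, ℝ) := ∑ i : t, (J1 (f i)) • (Φ i)
    have hAB : J1 A' = J2 B' := by
      simp only [A', B', map_sum, map_smul, smul_eq_mul]
      exact Finset.sum_congr rfl (fun i _ => mul_comm _ _)
    have hA' : ‖A - A'‖ ≤ ε := by
      rw [ContinuousMap.norm_le _ hε.le]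
      intro x
      have e1 : (A - A') x = J2 (∑ i : t, f i x • (Φ x - Φ i)) := by
        rw [ContinuousMap.sub_apply, hAx x]
        simp only [A', ContinuousMap.coe_sum, Finset.sum_apply, ContinuousMap.smul_apply,
          smul_eq_mul, map_sum, map_smul, map_sub, mul_sub, Finset.sum_sub_distrib]
        rw [← Finset.sum_mul, hsum x, one_mul]
        congr 1
        exact Finset.sum_congr rfl (fun i _ => mul_comm _ _)
      rw [e1, Real.norm_eq_abs]
      refine (state_bound J2 h2 _).trans ?_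
      refine (norm_sum_le _ _).trans ?_
      calc ∑ i : t, ‖f i x • (Φ x - Φ i)‖ = ∑ i : t, f i x * ‖Φ x - Φ i‖ := by
            refine Finset.sum_congr rfl (fun i _ => ?_)
            rw [norm_smul, Real.norm_eq_abs, abs_of_nonneg (f.nonneg i x)]
        _ ≤ ∑ i : t, f i x * ε := Finset.sum_le_sum (fun i _ => hclose i x)
        _ = ε := by rw [← Finset.sum_mul, hsum x, one_mul]
    have hB' : ‖B - B'‖ ≤ ε := by
      rw [ContinuousMap.norm_le _ hε.le]
      intro y
      have e1 : (B - B') y = J1 (Ψ y - ∑ i : t, (Φ i y) • f i) := by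
        rw [ContinuousMap.sub_apply, hBy y]
        simp only [B', ContinuousMap.coe_sum, Finset.sum_apply, ContinuousMap.smul_apply,
          smul_eq_mul, map_sum, map_smul, map_sub]
        congr 1
        exact Finset.sum_congr rfl (fun i _ => mul_comm _ _)
      rw [e1, Real.norm_eq_abs]
      refine (state_bound J1 h1 _).trans ?_
      rw [ContinuousMap.norm_le _ hε.le]
      intro x
      have e2 : (Ψ y - ∑ i : t, (Φ i y) • f i) x = ∑ i : t, f i x * ((Φ x - Φ i) y) := by
        have e3 : ∀ i : t, f i x * ((Φ x - Φ i) y) = f i x * Φ x y - Φ i y * f i x := by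
          intro i
          rw [ContinuousMap.sub_apply]
          ring
        simp only [e3, Finset.sum_sub_distrib]
        rw [← Finset.sum_mul, hsum x, one_mul]
        simp only [ContinuousMap.sub_apply, ContinuousMap.coe_sum, Finset.sum_apply,
          ContinuousMap.smul_apply, smul_eq_mul]
        rfl
      rw [e2]
      refine (norm_sum_le _ _).trans ?_
      calc ∑ i : t, ‖f i x * ((Φ x - Φ i) y)‖ ≤ ∑ i : t, f i x * ‖Φ x - Φ i‖ := by
            refine Finset.sum_le_sum (fun i _ => ?_)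
            rw [norm_mul, Real.norm_eq_abs (f i x), abs_of_nonneg (f.nonneg i x)]
            exact mul_le_mul_of_nonneg_left ((Φ x - Φ i).norm_coe_le_norm y) (f.nonneg i x)
        _ ≤ ∑ i : t, f i x * ε := Finset.sum_le_sum (fun i _ => hclose i x)
        _ = ε := by rw [← Finset.sum_mul, hsum x, one_mul]
    have g1 : |J1 A - J1 A'| ≤ ε := by
      rw [← map_sub]
      exact (state_bound J1 h1 _).trans hA'
    have g2 : |J2 B - J2 B'| ≤ ε := by
      rw [← map_sub]
      exact (state_bound J2 h2 _).trans hB'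
    rw [abs_le] at g1 g2 ⊢
    constructor <;> linarith [g1.1, g1.2, g2.1, g2.2]
  by_contra hne
  have hpos : 0 < |J1 A - J2 B| := abs_pos.2 (sub_ne_zero.2 hne)
  have := key (|J1 A - J2 B| / 4) (by positivity)
  linarith

end Pool.Agent.Helper974.Moufang
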