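import Mathlib
import Pool.Agent.Helper974.Moufang.Criterion

set_option autoImplicit false

namespace Pool.Agent.Helper974.Moufang

open Filter Topology

/-- autotopism triples generated by translations -/
inductive Wd {G : Type*} (mul ldiv : G → G → G) (e : G) : (G → G) → (G → G) → (G → G) → Prop
  | one : Wd mul ldiv e (fun x => x) (fun x => x) (fun x => x)
  | left (a : G) {α β δ : G → G} : Wd mul ldiv e α β δ →
      Wd mul ldiv e (fun x => mul a (α x)) (fun x => mul (β x) a) (fun x => mul a (mul (δ x) a))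
  | right (a : G) {α β δ : G → G} : Wd mul ldiv e α β δ →
      Wd mul ldiv e (fun x => mul (α x) a) (fun x => mul (ldiv a e) (mul (β x) (ldiv a e)))
        (fun x => mul (δ x) (ldiv a e))

section
variable {G : Type*} {mul ldiv rdiv : G → G → G} {e : G}

theorem Wd.rel (h : IsMoufang mul ldiv rdiv e) {α β δ : G → G} (w : Wd mul ldiv e α β δ) :
    ∀ x y, δ (mul x y) = mul (α x) (β y) := by
  induction w with
  | one => intro x y; rfl
  | left a _ ih =>
    intro x y
    change mul a (mul (_) a) = mul (mul a _) (mul _ a)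
    rw [ih, h.middle_m]
  | right a _ ih =>
    intro x y
    change mul (_) (ldiv a e) = mul (mul _ a) (mul (ldiv a e) (mul _ (ldiv a e)))
    rw [ih, ← h.atp2 (ldiv a e), h.inv_inv]

theorem Wd.comp {α β δ α2 β2 δ2 : G → G} (w : Wd mul ldiv e α β δ) (w2 : Wd mul ldiv e α2 β2 δ2) :
    Wd mul ldiv e (fun x => α (α2 x)) (fun x => β (β2 x)) (fun x => δ (δ2 x)) := by
  induction w with
  | one => exact w2
  | left a _ ih => exact Wd.left a ih
  | right a _ ih => exact Wd.right a ih

theorem Wd.inv (h : IsMoufang mul ldiv rdiv e) {α β δ : G → G} (w : Wd mul ldiv e α β δ) :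
    ∃ α' β' δ' : G → G, Wd mul ldiv e α' β' δ' ∧ (∀ x, α (α' x) = x) ∧ (∀ x, α' (α x) = x) ∧
      (∀ x, β (β' x) = x) ∧ (∀ x, β' (β x) = x) := by
  induction w with
  | one => exact ⟨_, _, _, Wd.one, fun _ => rfl, fun _ => rfl, fun _ => rfl, fun _ => rfl⟩
  | @left a α β δ _ ih =>
    obtain ⟨α', β', δ', w', i1, i2, i3, i4⟩ := ih
    refine ⟨_, _, _, w'.comp (Wd.left (ldiv a e) Wd.one), fun x => ?_, fun x => ?_, fun x => ?_, fun x => ?_⟩
    · change mul a (α (α' (mul (ldiv a e) x))) = x
      rw [i1, h.lip']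
    · change α' (mul (ldiv a e) (mul a (α x))) = x
      rw [h.lip, i2]
    · change mul (β (β' (mul x (ldiv a e)))) a = x
      rw [i3, h.rip']
    · change β' (mul (mul (β x) a) (ldiv a e)) = x
      rw [h.rip, i4]
  | @right a α β δ _ ih =>
    obtain ⟨α', β', δ', w', i1, i2, i3, i4⟩ := ih
    refine ⟨_, _, _, w'.comp (Wd.right (ldiv a e) Wd.one), fun x => ?_, fun x => ?_, fun x => ?_, fun x => ?_⟩
    · change mul (α (α' (mul x (ldiv a e)))) a = x
      rw [i1, h.rip']
    · change α' (mul (mul (α x) a) (ldiv a e)) = x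
      rw [h.rip, i2]
    · change mul (ldiv a e) (mul (β (β' (mul (ldiv (ldiv a e) e) (mul x (ldiv (ldiv a e) e))))) (ldiv a e)) = x
      rw [i3, h.inv_inv, ← h.flex a x, h.rip, h.lip]
    · change β' (mul (ldiv (ldiv a e) e) (mul (mul (ldiv a e) (mul (β x) (ldiv a e))) (ldiv (ldiv a e) e))) = x
      rw [h.inv_inv, ← h.flex (ldiv a e), h.rip', h.lip', i4]

theorem Wd.fam {α β δ : G → G} (w : Wd mul ldiv e α β δ) (U : Set (Set G))
    (hl : ∀ w ∈ U, ∀ a, {x | mul a x ∈ w} ∈ U) (hr : ∀ w ∈ U, ∀ a, {x | mul x a ∈ w} ∈ U) :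
    ∀ u ∈ U, {x | β x ∈ u} ∈ U := by
  induction w with
  | one => intro u hu; exact hu
  | left a _ ih => intro u hu; exact ih _ (hr u hu a)
  | right a _ ih => intro u hu; exact ih _ (hr _ (hl u hu (ldiv a e)) (ldiv a e))

theorem Wd.cont [TopologicalSpace G] (hm : Continuous (fun p : G × G => mul p.1 p.2)) {α β δ : G → G}
    (w : Wd mul ldiv e α β δ) : Continuous α ∧ Continuous β ∧ Continuous δ := by
  induction w with
  | one => exact ⟨continuous_id, continuous_id, continuous_id⟩
  | left a _ ih =>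
    exact ⟨hm.comp (continuous_const.prodMk ih.1), hm.comp (ih.2.1.prodMk continuous_const),
      hm.comp (continuous_const.prodMk (hm.comp (ih.2.2.prodMk continuous_const)))⟩
  | right a _ ih =>
    exact ⟨hm.comp (ih.1.prodMk continuous_const),
      hm.comp (continuous_const.prodMk (hm.comp (ih.2.1.prodMk continuous_const))),
      hm.comp (ih.2.2.prodMk continuous_const)⟩

/-- limits of states along an ultrafilter -/
theorem state_lim {ι : Type*} (F : Ultrafilter ι) {X : Type*} [TopologicalSpace X] [CompactSpace X]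
    (N : ι → (C(X, ℝ) →ₗ[ℝ] ℝ)) (hN : ∀ i, IsState (N i)) :
    ∃ L : C(X, ℝ) →ₗ[ℝ] ℝ, IsState L ∧ ∀ h, Tendsto (fun i => N i h) F (𝓝 (L h)) := by
  have hlim : ∀ f : C(X, ℝ), ∃ c : ℝ, Tendsto (fun i => N i f) F (𝓝 c) := by
    intro f
    have hb : ∀ i, N i f ∈ Set.Icc (-‖f‖) ‖f‖ := fun i => abs_le.mp (state_bound (N i) (hN i) f)
    have hcpt : IsCompact (Set.Icc (-‖f‖) ‖f‖) := isCompact_Icc
    obtain ⟨c, _, hc⟩ := hcpt.ultrafilter_le_nhds (F.map (fun i => N i f)) (by
      rw [Filter.le_principal_iff]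
      exact Filter.mem_map.mpr (Filter.Eventually.of_forall hb))
    exact ⟨c, hc⟩
  choose c hc using hlim
  refine ⟨{ toFun := c
            map_add' := fun f g => tendsto_nhds_unique (hc (f + g)) (((hc f).add (hc g)).congr
              (fun i => (map_add (N i) f g).symm))
            map_smul' := fun r f => tendsto_nhds_unique (hc (r • f)) (((hc f).const_mul r).congr
              (fun i => by rw [map_smul, smul_eq_mul])) }, ⟨?_, ?_⟩, hc⟩
  · exact tendsto_nhds_unique (hc 1) (tendsto_const_nhds.congr (fun i => ((hN i).1).symm))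
  · intro f hf
    exact ge_of_tendsto' (hc f) (fun i => (hN i).2 f hf)

end

end Pool.Agent.Helper974.Moufang
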