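import Mathlib
import Pool.Agent.Helper974.Moufang.Words2
import Pool.Agent.Helper974.Moufang.Fub

set_option autoImplicit false

namespace Pool.Agent.Helper974.Moufang

open Filter Topology

section
variable {G : Type*} [TopologicalSpace G] {mul ldiv rdiv : G → G → G} {e : G}

/-- pull back of a functional -/
def pull (φ : G → G) (hφ : Continuous φ) (M : C(G, ℝ) →ₗ[ℝ] ℝ) : C(G, ℝ) →ₗ[ℝ] ℝ where
  toFun h := M (h.comp ⟨φ, hφ⟩)
  map_add' h1 h2 := by rw [← map_add]; rfl
  map_smul' c h1 := by rw [RingHom.id_apply, ← map_smul]; rfl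

theorem pull_state (φ : G → G) (hφ : Continuous φ) (M : C(G, ℝ) →ₗ[ℝ] ℝ) (hM : IsState M) :
    IsState (pull φ hφ M) := by
  refine ⟨?_, fun f hf => hM.2 _ (fun x => hf _)⟩
  change M ((1 : C(G, ℝ)).comp ⟨φ, hφ⟩) = 1
  have : (1 : C(G, ℝ)).comp ⟨φ, hφ⟩ = 1 := rfl
  rw [this, hM.1]

/-- right translate -/
def rt (mul : G → G → G) (hm : Continuous (fun p : G × G => mul p.1 p.2)) (h : C(G, ℝ)) (z : G) : C(G, ℝ) :=
  ⟨fun v => h (mul v z), h.continuous.comp (hm.comp (continuous_id.prodMk continuous_const))⟩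

def lt (mul : G → G → G) (hm : Continuous (fun p : G × G => mul p.1 p.2)) (h : C(G, ℝ)) (v : G) : C(G, ℝ) :=
  ⟨fun z => h (mul v z), h.continuous.comp (hm.comp (continuous_const.prodMk continuous_id))⟩

theorem rt_cont [CompactSpace G] (hm : Continuous (fun p : G × G => mul p.1 p.2)) (h : C(G, ℝ)) :
    Continuous (fun z => rt mul hm h z) := by
  let M : C(G × G, ℝ) := ⟨fun p => h (mul p.2 p.1), h.continuous.comp
    (hm.comp (continuous_snd.prodMk continuous_fst))⟩
  exact M.curry.continuous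

theorem lt_cont [CompactSpace G] (hm : Continuous (fun p : G × G => mul p.1 p.2)) (h : C(G, ℝ)) :
    Continuous (fun z => lt mul hm h z) := by
  let M : C(G × G, ℝ) := ⟨fun p => h (mul p.1 p.2), h.continuous.comp hm⟩
  exact M.curry.continuous

theorem state_cont [CompactSpace G] (L : C(G, ℝ) →ₗ[ℝ] ℝ) (hL : IsState L) : Continuous (fun f => L f) := by
  let Lc : C(G, ℝ) →L[ℝ] ℝ := L.mkContinuous 1 (fun f => by
    rw [Real.norm_eq_abs, one_mul]; exact state_bound L hL f)
  exact Lc.continuous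

theorem conc_const [CompactSpace G] (L : C(G, ℝ) →ₗ[ℝ] ℝ) (hL : IsState L) (C : Set G)
    (hc : ∀ f : C(G, ℝ), (∀ x ∈ C, f x = 0) → L f = 0) (f : C(G, ℝ)) (c : ℝ)
    (hf : ∀ x ∈ C, f x = c) : L f = c := by
  have h1 := hc (f - c • (1 : C(G, ℝ))) (fun x hx => by
    change f x - c * 1 = 0
    rw [hf x hx]; ring)
  rw [map_sub, map_smul, hL.1, smul_eq_mul] at h1
  linarith

/-- uniqueness of the triple of limit states -/
theorem triple_unique [CompactSpace G] [T2Space G] (h : IsMoufang mul ldiv rdiv e)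
    (hm : Continuous (fun p : G × G => mul p.1 p.2)) (C : Set G) (x : G) (hx : x ∈ C)
    (ρ ρ' σ' κ κ' : C(G, ℝ) →ₗ[ℝ] ℝ) (hρ : IsState ρ) (hσ' : IsState σ')
    (cρ : ∀ f : C(G, ℝ), (∀ x ∈ connectedComponent e, f x = 0) → ρ f = 0)
    (cσ' : ∀ f : C(G, ℝ), (∀ x ∈ C, f x = 0) → σ' f = 0)
    (r1 : ∀ z ∈ C, ∀ f, ρ (rt mul hm f z) = κ f)
    (r1' : ∀ z ∈ C, ∀ f, ρ' (rt mul hm f z) = κ' f)
    (r2' : ∀ v ∈ connectedComponent e, ∀ f, σ' (lt mul hm f v) = κ' f) (f : C(G, ℝ)) : ρ f = ρ' f := by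
  have hκ : ∀ f, κ f = κ' f := by
    intro f
    let A : C(G, ℝ) := ⟨fun v => σ' (lt mul hm f v), (state_cont σ' hσ').comp (lt_cont hm f)⟩
    let B : C(G, ℝ) := ⟨fun z => ρ (rt mul hm f z), (state_cont ρ hρ).comp (rt_cont hm f)⟩
    have hAB : ρ A = σ' B := by
      refine state_fubini ρ hρ σ' hσ' (fun v z => f (mul v z)) (f.continuous.comp hm) A ?_ B ?_
      · intro v g hg
        have : g = lt mul hm f v := by ext z; exact hg z
        rw [this]; rfl
      · intro z g hg
        have : g = rt mul hm f z := by ext v; exact hg v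
        rw [this]; rfl
    have h1 : ρ A = κ' f := conc_const ρ hρ _ cρ A (κ' f) (fun v hv => r2' v hv f)
    have h2 : σ' B = κ f := conc_const σ' hσ' C cσ' B (κ f) (fun z hz => r1 z hz f)
    rw [← h2, ← hAB, h1]
  let g : C(G, ℝ) := rt mul hm f (ldiv x e)
  have hg : rt mul hm g x = f := by
    ext v
    change f (mul (mul v x) (ldiv x e)) = f v
    rw [h.rip]
  have e1 := r1 x hx g
  have e2 := r1' x hx g
  rw [hg] at e1 e2
  rw [e1, e2, hκ]

/-- the state of the identity component seen on `G` -/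
structure HaarComp (mul : G → G → G) (e : G) (M : C(G, ℝ) →ₗ[ℝ] ℝ) : Prop where
  state : IsState M
  conc : ∀ f : C(G, ℝ), (∀ x ∈ connectedComponent e, f x = 0) → M f = 0
  left : ∀ k ∈ connectedComponent e, ∀ f g : C(G, ℝ), (∀ x ∈ connectedComponent e, g x = f (mul k x)) → M g = M f
  right : ∀ k ∈ connectedComponent e, ∀ f g : C(G, ℝ), (∀ x ∈ connectedComponent e, g x = f (mul x k)) → M g = M f

theorem comp_map {φ ψ : G → G} (_hφ : Continuous φ) (hψ : Continuous ψ) (_i1 : ∀ x, φ (ψ x) = x)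
    (i2 : ∀ x, ψ (φ x) = x) {a z : G} : z ∈ connectedComponent (φ a) → ψ z ∈ connectedComponent a := by
  intro hz
  have := hψ.image_connectedComponent_subset (φ a) ⟨z, hz, rfl⟩
  rwa [i2] at this

/-- limit data of a family of triples -/
theorem limit_data [CompactSpace G] [T2Space G] (h : IsMoufang mul ldiv rdiv e)
    (hm : Continuous (fun p : G × G => mul p.1 p.2)) (M : C(G, ℝ) →ₗ[ℝ] ℝ) (hM : HaarComp mul e M)
    {ι : Type*} (F : Ultrafilter ι) (α β δ : ι → G → G) (hw : ∀ i, Wd mul ldiv e (α i) (β i) (δ i))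
    (he : ∀ i, α i e ∈ connectedComponent e) :
    ∃ x : G, Tendsto (fun i => β i e) F (𝓝 x) ∧ ∃ ρ σ κ : C(G, ℝ) →ₗ[ℝ] ℝ, IsState ρ ∧ IsState σ ∧
      (∀ f, Tendsto (fun i => M (f.comp ⟨α i, ((hw i).cont hm).1⟩)) F (𝓝 (ρ f))) ∧
      (∀ f : C(G, ℝ), (∀ x ∈ connectedComponent e, f x = 0) → ρ f = 0) ∧
      (∀ f : C(G, ℝ), (∀ y ∈ connectedComponent x, f y = 0) → σ f = 0) ∧
      (∀ z ∈ connectedComponent x, ∀ f, ρ (rt mul hm f z) = κ f) ∧
      (∀ v ∈ connectedComponent e, ∀ f, σ (lt mul hm f v) = κ f) := by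
  obtain ⟨x, _, hx⟩ := (isCompact_univ (X := G)).ultrafilter_le_nhds (F.map (fun i => β i e)) (by simp)
  have hx' : Tendsto (fun i => β i e) F (𝓝 x) := hx
  obtain ⟨ρ, hρ, lρ⟩ := state_lim F (fun i => pull (α i) ((hw i).cont hm).1 M)
    (fun i => pull_state _ _ M hM.state)
  obtain ⟨σ, hσ, lσ⟩ := state_lim F (fun i => pull (β i) ((hw i).cont hm).2.1 M)
    (fun i => pull_state _ _ M hM.state)
  obtain ⟨κ, hκ, lκ⟩ := state_lim F (fun i => pull (δ i) ((hw i).cont hm).2.2 M)
    (fun i => pull_state _ _ M hM.state)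
  have hα : ∀ i, ∀ v ∈ connectedComponent e, α i v ∈ connectedComponent e := by
    intro i v hv
    have h1 := ((hw i).cont hm).1.image_connectedComponent_subset e ⟨v, hv, rfl⟩
    rwa [← connectedComponent_eq (he i)] at h1
  refine ⟨x, hx', ρ, σ, κ, hρ, hσ, lρ, ?_, ?_, ?_, ?_⟩
  · intro f hf
    refine tendsto_nhds_unique (lρ f) (tendsto_const_nhds.congr (fun i => ?_))
    exact (hM.conc (f.comp ⟨α i, ((hw i).cont hm).1⟩) (fun v hv => hf (α i v) (hα i v hv))).symm
  · intro f hf
    by_contra hne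
    have hpos : 0 < |σ f| / 2 := by positivity
    have hU : IsOpen {y | |f y| < |σ f| / 2} := isOpen_lt f.continuous.abs continuous_const
    obtain ⟨w, hw1, hxw, hwU⟩ : ∃ w : Set G, IsClopen w ∧ x ∈ w ∧ w ⊆ {y | |f y| < |σ f| / 2} := by
      have hsub : connectedComponent x ⊆ {y | |f y| < |σ f| / 2} := fun y hy => by
        change |f y| < _
        rw [hf y hy, abs_zero]; exact hpos
      rw [connectedComponent_eq_iInter_isClopen] at hsub
      haveI : Nonempty {s : Set G // IsClopen s ∧ x ∈ s} := ⟨⟨Set.univ, isClopen_univ, Set.mem_univ x⟩⟩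
      obtain ⟨s, hs⟩ := exists_subset_nhds_of_isCompact' (V := fun s : {s : Set G // IsClopen s ∧ x ∈ s} => s.1)
        (fun s t => ⟨⟨s.1 ∩ t.1, s.2.1.inter t.2.1, ⟨s.2.2, t.2.2⟩⟩, Set.inter_subset_left, Set.inter_subset_right⟩)
        (fun s => s.2.1.isClosed.isCompact) (fun s => s.2.1.isClosed) (fun y hy => hU.mem_nhds (hsub hy))
      exact ⟨s.1, s.2.1, s.2.2, hs⟩
    have hev : ∀ᶠ i in (F : Filter ι), β i e ∈ w := hx' (hw1.isOpen.mem_nhds hxw)
    have hlim := (lσ f).abs
    have hle : |σ f| ≤ |σ f| / 2 := by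
      refine le_of_tendsto hlim ?_
      filter_upwards [hev] with i hi
      have hKw : ∀ v ∈ connectedComponent e, β i v ∈ w := by
        intro v hv
        have h1 := ((hw i).cont hm).2.1.image_connectedComponent_subset e ⟨v, hv, rfl⟩
        exact (hw1.connectedComponent_subset hi) h1
      -- compare with the truncation
      let c : ℝ := |σ f| / 2
      let g : C(G, ℝ) := f.comp ⟨β i, ((hw i).cont hm).2.1⟩
      let gt : C(G, ℝ) := ⟨fun y => max (-c) (min c (g y)), by
        exact continuous_const.max (continuous_const.min g.continuous)⟩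
      have hgt : M g = M gt := by
        have h2 := hM.conc (g - gt) (fun v hv => by
          change g v - max (-c) (min c (g v)) = 0
          have h3 : |g v| < c := hwU (hKw v hv)
          rw [abs_lt] at h3
          rw [min_eq_right h3.2.le, max_eq_right h3.1.le, sub_self])
        rw [map_sub] at h2
        linarith
      have hb : |M gt| ≤ c := by
        refine le_trans (state_bound M hM.state gt) ?_
        rw [ContinuousMap.norm_le _ hpos.le]
        intro y
        change |max (-c) (min c (g y))| ≤ c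
        rw [abs_le]
        have hc0 : 0 < c := hpos
        exact ⟨le_max_left _ _, max_le (by linarith) (min_le_left _ _)⟩
      change |M g| ≤ c
      rw [hgt]; exact hb
    linarith
  · intro z hz f
    -- z = x k
    set k := mul (ldiv x e) z with hk
    have hkK : k ∈ connectedComponent e := by
      have h1 := (good_L h hm (ldiv x e)).cont.image_connectedComponent_subset x ⟨z, hz, rfl⟩
      change mul (ldiv x e) z ∈ connectedComponent (mul (ldiv x e) x) at h1
      rwa [h.inv_mul] at h1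
    have hxk : mul x k = z := h.lip' x z
    have hzi : Tendsto (fun i => mul (β i e) k) F (𝓝 z) := by
      rw [← hxk]
      have hc : Continuous (fun y => mul y k) := hm.comp (continuous_id.prodMk continuous_const)
      exact (hc.tendsto x).comp hx'
    have h1 : ∀ i, M ((rt mul hm f (mul (β i e) k)).comp ⟨α i, ((hw i).cont hm).1⟩)
        = M (f.comp ⟨δ i, ((hw i).cont hm).2.2⟩) := by
      intro i
      obtain ⟨α', β', δ', w', i1, i2, i3, i4⟩ := (hw i).inv h
      have hmem : mul (β i e) k ∈ connectedComponent (β i e) := by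
        have h2 := (good_L h hm (β i e)).cont.image_connectedComponent_subset e ⟨k, hkK, rfl⟩
        change mul (β i e) k ∈ connectedComponent (mul (β i e) e) at h2
        rwa [h.mul_one] at h2
      have hwS := comp_map ((hw i).cont hm).2.1 (w'.cont hm).2.1 i3 i4 hmem
      refine hM.right (β' (mul (β i e) k)) hwS _ _ (fun v _ => ?_)
      change f (mul (α i v) (mul (β i e) k)) = f (δ i (mul v (β' (mul (β i e) k))))
      rw [(hw i).rel h, i3]
    have h2 : Tendsto (fun i => pull (α i) ((hw i).cont hm).1 M (rt mul hm f (mul (β i e) k))) F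
        (𝓝 (ρ (rt mul hm f z))) := by
      have h3 := lρ (rt mul hm f z)
      have h4 : Tendsto (fun i => pull (α i) ((hw i).cont hm).1 M (rt mul hm f (mul (β i e) k))
          - pull (α i) ((hw i).cont hm).1 M (rt mul hm f z)) F (𝓝 0) := by
        have h5 : Tendsto (fun i => ‖rt mul hm f (mul (β i e) k) - rt mul hm f z‖) F (𝓝 0) := by
          have h6 : Continuous (fun y => ‖rt mul hm f y - rt mul hm f z‖) :=
            ((rt_cont hm f).sub continuous_const).norm
          have h7 : Tendsto (fun i => ‖rt mul hm f (mul (β i e) k) - rt mul hm f z‖) F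
              (𝓝 ‖rt mul hm f z - rt mul hm f z‖) := (h6.tendsto z).comp hzi
          rwa [sub_self, norm_zero] at h7
        refine squeeze_zero_norm (fun i => ?_) h5
        rw [← map_sub, Real.norm_eq_abs]
        exact state_bound _ (pull_state _ _ M hM.state) _
      have := h4.add h3
      simpa using this
    refine tendsto_nhds_unique h2 ?_
    exact (lκ f).congr (fun i => (h1 i).symm)
  · intro v hv f
    have h1 : ∀ i, M ((lt mul hm f v).comp ⟨β i, ((hw i).cont hm).2.1⟩)
        = M (f.comp ⟨δ i, ((hw i).cont hm).2.2⟩) := by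
      intro i
      obtain ⟨α', β', δ', w', i1, i2, i3, i4⟩ := (hw i).inv h
      have hv' : v ∈ connectedComponent (α i e) := by rwa [← connectedComponent_eq (he i)]
      have hwS := comp_map ((hw i).cont hm).1 (w'.cont hm).1 i1 i2 hv'
      refine hM.left (α' v) hwS _ _ (fun y _ => ?_)
      change f (mul v (β i y)) = f (δ i (mul (α' v) y))
      rw [(hw i).rel h, i1]
    exact tendsto_nhds_unique (lσ (lt mul hm f v)) ((lκ f).congr (fun i => (h1 i).symm))

/-- uniform continuity of the averaged states along clopen partitions -/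
theorem osc [CompactSpace G] [T2Space G] (h : IsMoufang mul ldiv rdiv e)
    (hm : Continuous (fun p : G × G => mul p.1 p.2)) (M : C(G, ℝ) →ₗ[ℝ] ℝ) (hM : HaarComp mul e M)
    (f : C(G, ℝ)) (ε : ℝ) (hε : 0 < ε) :
    ∃ S : Finset {u : Set G // IsClopen u}, ∀ α β δ α' β' δ' : G → G,
      ∀ (w : Wd mul ldiv e α β δ) (w' : Wd mul ldiv e α' β' δ'), α e ∈ connectedComponent e →
      α' e ∈ connectedComponent e → (∀ u ∈ S, (β e ∈ u.1 ↔ β' e ∈ u.1)) →
      |M (f.comp ⟨α, (w.cont hm).1⟩) - M (f.comp ⟨α', (w'.cont hm).1⟩)| ≤ ε := by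
  classical
  by_contra hcon
  push Not at hcon
  choose α β δ α' β' δ' hw hw' he he' hS hlt using hcon
  set F : Ultrafilter (Finset {u : Set G // IsClopen u}) := Ultrafilter.of Filter.atTop with hF
  have hFle : (F : Filter (Finset {u : Set G // IsClopen u})) ≤ Filter.atTop := Ultrafilter.of_le _
  obtain ⟨x, hx, ρ, σ, κ, hρ, hσ, lρ, cρ, cσ, r1, r2⟩ := limit_data h hm M hM F α β δ hw he
  obtain ⟨y, hy, ρ', σ', κ', hρ', hσ', lρ', cρ', cσ', r1', r2'⟩ := limit_data h hm M hM F α' β' δ' hw' he'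
  have hxy : y ∈ connectedComponent x := by
    rw [connectedComponent_eq_iInter_isClopen]
    rw [Set.mem_iInter]
    rintro ⟨w, hw1, hxw⟩
    change y ∈ w
    have hev : ∀ᶠ S in (F : Filter (Finset {u : Set G // IsClopen u})), β S e ∈ w :=
      hx (hw1.isOpen.mem_nhds hxw)
    have hev2 : ∀ᶠ S in (F : Filter (Finset {u : Set G // IsClopen u})), {(⟨w, hw1⟩ : {u : Set G // IsClopen u})} ≤ S :=
      hFle (Filter.eventually_ge_atTop _)
    refine hw1.isClosed.mem_of_tendsto hy ?_
    filter_upwards [hev, hev2] with S hS1 hS2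
    exact (hS S ⟨w, hw1⟩ (hS2 (Finset.mem_singleton_self _))).mp hS1
  have hC : connectedComponent x = connectedComponent y := connectedComponent_eq hxy
  have hρρ := triple_unique h hm (connectedComponent x) x mem_connectedComponent ρ ρ' σ' κ κ' hρ hσ' cρ
    (fun f hf => cσ' f (fun z hz => hf z (by rw [hC]; exact hz))) r1
    (fun z hz f => r1' z (by rw [← hC]; exact hz) f) r2' f
  have hlim := ((lρ f).sub (lρ' f)).abs
  rw [hρρ, sub_self, abs_zero] at hlim
  have hge : ε ≤ 0 := ge_of_tendsto' hlim (fun S => (hlt S).le)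
  linarith

end

end Pool.Agent.Helper974.Moufang
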