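import Mathlib
import Pool.Agent.Helper974.Moufang.Osc
import Pool.Agent.Helper974.Moufang.Reduction

set_option autoImplicit false

namespace Pool.Agent.Helper974.Moufang

open Filter Topology

section
variable {G : Type*} [TopologicalSpace G] {mul ldiv rdiv : G → G → G} {e : G}

/-- pairs of components of autotopism triples preserving the identity component -/
def XX (mul ldiv : G → G → G) (e : G) : Type _ :=
  {p : (G → G) × (G → G) // ∃ δ, Wd mul ldiv e p.1 p.2 δ ∧ p.1 e ∈ connectedComponent e}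

theorem XX_contA (hm : Continuous (fun p : G × G => mul p.1 p.2)) (t : XX mul ldiv e) :
    Continuous t.1.1 := by
  obtain ⟨δ, w, _⟩ := t.2
  exact (w.cont hm).1

def XXmul (hm : Continuous (fun p : G × G => mul p.1 p.2)) (s t : XX mul ldiv e) : XX mul ldiv e :=
  ⟨(fun x => s.1.1 (t.1.1 x), fun x => s.1.2 (t.1.2 x)), by
    obtain ⟨δ, w, hw⟩ := s.2
    obtain ⟨δ', w', hw'⟩ := t.2
    refine ⟨_, w.comp w', ?_⟩
    have h1 := (w.cont hm).1.image_connectedComponent_subset e ⟨t.1.1 e, hw', rfl⟩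
    rwa [← connectedComponent_eq hw] at h1⟩

theorem XX_exists_inv (h : IsMoufang mul ldiv rdiv e) (hm : Continuous (fun p : G × G => mul p.1 p.2))
    (s : XX mul ldiv e) : ∃ s' : XX mul ldiv e, (∀ t, XXmul hm s (XXmul hm s' t) = t) ∧
      ∀ t, XXmul hm s' (XXmul hm s t) = t := by
  obtain ⟨δ, w, hw⟩ := s.2
  obtain ⟨α', β', δ', w', i1, i2, i3, i4⟩ := w.inv h
  have he : e ∈ connectedComponent (s.1.1 e) := by
    rw [← connectedComponent_eq hw]; exact mem_connectedComponent
  refine ⟨⟨(α', β'), δ', w', comp_map (w.cont hm).1 (w'.cont hm).1 i1 i2 he⟩, fun t => ?_, fun t => ?_⟩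
  · refine Subtype.ext (Prod.ext ?_ ?_)
    · funext x; exact i1 _
    · funext x; exact i3 _
  · refine Subtype.ext (Prod.ext ?_ ?_)
    · funext x; exact i2 _
    · funext x; exact i4 _

theorem exists_J [CompactSpace G] [T2Space G] (h : IsMoufang mul ldiv rdiv e)
    (hm : Continuous (fun p : G × G => mul p.1 p.2)) (hl : Continuous (fun p : G × G => ldiv p.1 p.2))
    (M : C(G, ℝ) →ₗ[ℝ] ℝ) (hM : HaarComp mul e M) :
    ∃ J : C(G, ℝ) →ₗ[ℝ] ℝ, IsState J ∧
      ∀ (s : XX mul ldiv e) (f : C(G, ℝ)), J (f.comp ⟨s.1.1, XX_contA hm s⟩) = J f := by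
  classical
  have hfam : ∀ u : {u : Set G // IsClopen u}, ∃ U : Set (Set G), U.Finite ∧ u.1 ∈ U ∧
      (∀ w ∈ U, ∀ a, {x | mul a x ∈ w} ∈ U) ∧ (∀ w ∈ U, ∀ a, {x | mul x a ∈ w} ∈ U) := by
    intro u
    obtain ⟨U, h1, h2, _, h4, h5⟩ := clopen_family h hm hl u.1 u.2
    exact ⟨U, h1, h2, h4, h5⟩
  choose U hUf hUm hUl hUr using hfam
  set V : Finset {u : Set G // IsClopen u} → Set (Set G) := fun S => ⋃ u ∈ S, U u with hV
  have hVf : ∀ S, (V S).Finite := by
    intro S
    rw [hV]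
    exact Set.Finite.biUnion S.finite_toSet (fun u _ => hUf u)
  have hVl : ∀ S, ∀ w ∈ V S, ∀ a, {x | mul a x ∈ w} ∈ V S := by
    intro S w hw a
    rw [hV] at hw ⊢
    simp only [Set.mem_iUnion] at hw ⊢
    obtain ⟨u, hu, hwu⟩ := hw
    exact ⟨u, hu, hUl u w hwu a⟩
  have hVr : ∀ S, ∀ w ∈ V S, ∀ a, {x | mul x a ∈ w} ∈ V S := by
    intro S w hw a
    rw [hV] at hw ⊢
    simp only [Set.mem_iUnion] at hw ⊢
    obtain ⟨u, hu, hwu⟩ := hw
    exact ⟨u, hu, hUr u w hwu a⟩
  let W : Finset {u : Set G // IsClopen u} → Set (Set (XX mul ldiv e)) := fun S =>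
    (fun w : Set G => {t : XX mul ldiv e | t.1.2 e ∈ w}) '' V S
  have hWf : ∀ S, (W S).Finite := fun S => (hVf S).image _
  have hWc : ∀ S, ∀ s : XX mul ldiv e, ∀ w ∈ W S, {t | XXmul hm s t ∈ w} ∈ W S := by
    rintro S s _ ⟨w, hw, rfl⟩
    obtain ⟨δ, wd, _⟩ := s.2
    exact ⟨{x | s.1.2 x ∈ w}, wd.fam (V S) (hVl S) (hVr S) w hw, rfl⟩
  haveI : Nonempty (XX mul ldiv e) := ⟨⟨(fun x => x, fun x => x), _, Wd.one, mem_connectedComponent⟩⟩
  set F : Ultrafilter (Finset {u : Set G // IsClopen u}) := Ultrafilter.of Filter.atTop with hF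
  have hFle : (F : Filter (Finset {u : Set G // IsClopen u})) ≤ Filter.atTop := Ultrafilter.of_le _
  let Φ : C(G, ℝ) → XX mul ldiv e → ℝ := fun f t => M (f.comp ⟨t.1.1, XX_contA hm t⟩)
  have hΦadd : ∀ f g, Φ (f + g) = fun t => Φ f t + Φ g t := by
    intro f g
    funext t
    change M ((f + g).comp _) = M (f.comp _) + M (g.comp _)
    rw [← map_add]; rfl
  have hΦsm : ∀ (c : ℝ) f, Φ (c • f) = fun t => c * Φ f t := by
    intro c f
    funext t
    change M ((c • f).comp _) = c * M (f.comp _)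
    rw [← smul_eq_mul, ← map_smul]; rfl
  have hΦb : ∀ f t, |Φ f t| ≤ ‖f‖ := by
    intro f t
    exact state_bound _ (pull_state t.1.1 (XX_contA hm t) M hM.state) f
  let N : Finset {u : Set G // IsClopen u} → (C(G, ℝ) →ₗ[ℝ] ℝ) := fun S =>
    { toFun := fun f => avg (W S) (Φ f)
      map_add' := fun f g => by rw [hΦadd, avg_add]
      map_smul' := fun c f => by rw [hΦsm, avg_smul]; rfl }
  have hN : ∀ S, IsState (N S) := by
    intro S
    refine ⟨?_, fun f hf => ?_⟩
    · change avg (W S) (Φ 1) = 1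
      have : Φ 1 = fun _ => 1 := by
        funext t
        exact (pull_state t.1.1 (XX_contA hm t) M hM.state).1
      rw [this]
      exact avg_one (W S) (hWf S)
    · exact avg_nonneg (W S) (Φ f) (fun t => hM.state.2 _ (fun x => hf _))
  obtain ⟨J, hJ, lJ⟩ := state_lim F N hN
  refine ⟨J, hJ, fun s f => ?_⟩
  obtain ⟨s', hs1, hs2⟩ := XX_exists_inv h hm s
  have h0 : Tendsto (fun S => N S (f.comp ⟨s.1.1, XX_contA hm s⟩) - N S f) F (𝓝 0) := by
    rw [Metric.tendsto_nhds]
    intro ε hε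
    obtain ⟨S0, hS0⟩ := osc h hm M hM f (ε / 2) (by linarith)
    have hev : ∀ᶠ S in (F : Filter (Finset {u : Set G // IsClopen u})), S0 ≤ S :=
      hFle (Filter.eventually_ge_atTop S0)
    filter_upwards [hev] with S hS
    rw [Real.dist_eq, sub_zero]
    have key := avg_inv (W S) (hWf S) (XXmul hm s) (XXmul hm s') hs1 hs2
      (fun w hw => hWc S s w hw) (fun w hw => hWc S s' w hw) (Φ f) (ε / 2) (by
        intro t t' htt
        obtain ⟨δ, w, hw⟩ := t.2
        obtain ⟨δ', w', hw'⟩ := t'.2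
        refine hS0 _ _ _ _ _ _ w w' hw hw' (fun u hu => ?_)
        refine htt {t | t.1.2 e ∈ u.1} ⟨u.1, ?_, rfl⟩
        rw [hV]
        simp only [Set.mem_iUnion]
        exact ⟨u, hS hu, hUm u⟩)
    exact lt_of_le_of_lt key (by linarith)
  have h1 := (lJ (f.comp ⟨s.1.1, XX_contA hm s⟩)).sub (lJ f)
  have h2 := tendsto_nhds_unique h1 h0
  linarith

/-- extension theorem: a Haar state on the identity component gives an invariant integral -/
theorem extension [CompactSpace G] [T2Space G] (h : IsMoufang mul ldiv rdiv e)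
    (hm : Continuous (fun p : G × G => mul p.1 p.2)) (hl : Continuous (fun p : G × G => ldiv p.1 p.2))
    (M : C(G, ℝ) →ₗ[ℝ] ℝ) (hM : HaarComp mul e M) :
    ∃ I : C(G, ℝ) →ₗ[ℝ] ℝ, IsState I ∧
      (∀ (a : G) (f g : C(G, ℝ)), (∀ x, g x = f (mul a x)) → I g = I f) ∧
      (∀ (a : G) (f g : C(G, ℝ)), (∀ x, g x = f (mul x a)) → I g = I f) := by
  haveI : Nonempty G := ⟨e⟩
  obtain ⟨J, hJ, hJi⟩ := exists_J h hm hl M hM
  have hJw : ∀ {γ β δ : G → G} (_w : Wd mul ldiv e γ β δ) (_he : γ e ∈ connectedComponent e)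
      (f g : C(G, ℝ)), (∀ y, g y = f (γ y)) → J g = J f := by
    intro γ β δ w he f g hfg
    rw [← hJi ⟨(γ, β), δ, w, he⟩ f]
    congr 1
    ext y
    exact hfg y
  let A : C(G, ℝ) →ₗ[ℝ] C(G, ℝ) :=
    { toFun := fun f => ⟨fun x => J (lt mul hm f x), (state_cont J hJ).comp (lt_cont hm f)⟩
      map_add' := fun f1 f2 => by
        ext x
        change J (lt mul hm (f1 + f2) x) = J (lt mul hm f1 x) + J (lt mul hm f2 x)
        rw [← map_add]; rfl
      map_smul' := fun c f1 => by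
        ext x
        change J (lt mul hm (c • f1) x) = c * J (lt mul hm f1 x)
        rw [← smul_eq_mul, ← map_smul]; rfl }
  have hA : ∀ f x, A f x = J (lt mul hm f x) := fun f x => rfl
  have hAc : ∀ f : C(G, ℝ), ∀ x x' : G, connectedComponent x = connectedComponent x' → A f x = A f x' := by
    intro f x x' hxx
    rw [hA, hA]
    symm
    refine hJw (Wd.left (ldiv x e) (Wd.left x' Wd.one)) ?_ _ _ ?_
    · change mul (ldiv x e) (mul x' e) ∈ connectedComponent e
      rw [h.mul_one]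
      have h1 := (good_L h hm (ldiv x e)).cont.image_connectedComponent_subset x
        ⟨x', by rw [hxx]; exact mem_connectedComponent, rfl⟩
      change mul (ldiv x e) x' ∈ connectedComponent (mul (ldiv x e) x) at h1
      rwa [h.inv_mul] at h1
    · intro y
      change f (mul x' y) = f (mul x (mul (ldiv x e) (mul x' y)))
      rw [h.lip']
  have hTL : ∀ a, ∀ f g : C(G, ℝ), (∀ x, g x = f (mul a x)) → ∀ x, A g x = A f (mul a x) := by
    intro a f g hfg x
    rw [hA, hA]
    refine hJw (Wd.left (ldiv (mul a x) e) (Wd.left a (Wd.left x Wd.one))) ?_ _ _ ?_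
    · change mul (ldiv (mul a x) e) (mul a (mul x e)) ∈ connectedComponent e
      rw [h.mul_one, h.inv_mul]
      exact mem_connectedComponent
    · intro y
      change g (mul x y) = f (mul (mul a x) (mul (ldiv (mul a x) e) (mul a (mul x y))))
      rw [hfg, h.lip']
  have hTR : ∀ a, ∀ f g : C(G, ℝ), (∀ x, g x = f (mul x a)) → ∀ x, A g x = A f (mul x a) := by
    intro a f g hfg x
    rw [hA, hA]
    refine hJw (Wd.left (ldiv (mul x a) e) (Wd.right a (Wd.left x Wd.one))) ?_ _ _ ?_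
    · change mul (ldiv (mul x a) e) (mul (mul x e) a) ∈ connectedComponent e
      rw [h.mul_one, h.inv_mul]
      exact mem_connectedComponent
    · intro y
      change g (mul x y) = f (mul (mul x a) (mul (ldiv (mul x a) e) (mul (mul x y) a)))
      rw [hfg, h.lip']
  let T : Bool × G → G → G := fun k x => if k.1 then mul k.2 x else mul x k.2
  have hT1 : ∀ a, T (true, a) = fun x => mul a x := fun a => by funext x; simp [T]
  have hT2 : ∀ a, T (false, a) = fun x => mul x a := fun a => by funext x; simp [T]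
  have hTc : ∀ k, Continuous (T k) := by
    rintro ⟨b, a⟩
    cases b
    · rw [hT2]; exact hm.comp (continuous_id.prodMk continuous_const)
    · rw [hT1]; exact hm.comp (continuous_const.prodMk continuous_id)
  have hinv : ∀ k, ∃ k', (∀ x, T k (T k' x) = x) ∧ ∀ x, T k' (T k x) = x := by
    rintro ⟨b, a⟩
    refine ⟨(b, ldiv a e), ?_⟩
    cases b
    · rw [hT2, hT2]; exact ⟨fun x => h.rip' x a, fun x => h.rip x a⟩
    · rw [hT1, hT1]; exact ⟨fun x => h.lip' a x, fun x => h.lip a x⟩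
  obtain ⟨I0, hI1, hI2, hI3⟩ := exists_integral_comp T hTc hinv (fun u hu => by
    obtain ⟨U, hU1, hU2, hU3, hU4, hU5⟩ := clopen_family h hm hl u hu
    refine ⟨U, hU1, hU2, fun w hw k => ?_⟩
    obtain ⟨b, a⟩ := k
    cases b
    · rw [hT2]; exact hU5 w hw a
    · rw [hT1]; exact hU4 w hw a)
  refine ⟨I0.comp A, ⟨?_, ?_⟩, ?_, ?_⟩
  · have : A 1 = 1 := by
      ext x
      rw [hA]
      change J (lt mul hm 1 x) = 1
      have : lt mul hm (1 : C(G, ℝ)) x = 1 := rfl
      rw [this, hJ.1]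
    rw [LinearMap.comp_apply, this, hI1]
  · intro f hf
    rw [LinearMap.comp_apply]
    refine hI2 _ (fun x => ?_)
    rw [hA]
    exact hJ.2 _ (fun y => hf _)
  · intro a f g hfg
    rw [LinearMap.comp_apply, LinearMap.comp_apply, ← hI3 (true, a) (A f) (hAc f)]
    congr 1
    ext x
    rw [hTL a f g hfg x]
    simp [T]
  · intro a f g hfg
    rw [LinearMap.comp_apply, LinearMap.comp_apply, ← hI3 (false, a) (A f) (hAc f)]
    congr 1
    ext x
    rw [hTR a f g hfg x]
    simp [T]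

end

end Pool.Agent.Helper974.Moufang
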